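import Pool.Agent.H85.LNN.CUT
import Pool.Agent.H85.LK.All

/-! MP_8f7db2_an: the main estimate with the first eigenvalue of the set itself -/

set_option autoImplicit false

open MeasureTheory Metric Set ProbabilityTheory Filter
open scoped ENNReal Topology

namespace Pool.Agent.H85.LNN

open Pool.Agent.H85.LK

theorem hk_all : T_HK := Pool.Agent.H84.LK.pf_HK
theorem int_all : T_INT := Pool.Agent.H17.LK.pf_INT hk_all
theorem qid_all : T_QID := Pool.Agent.H67.LK.pf_QID hk_all int_all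
theorem enl_all : T_ENL := Pool.Agent.H65.LK.pf_ENL hk_all qid_all
theorem rps_all : T_RPS := Pool.Agent.H7.LK.pf_RPS
theorem rpa_all : T_RPA := Pool.Agent.H59.LK.pf_RPA hk_all int_all rps_all
theorem la_all : T_LA := Pool.Agent.H65.LK.pf_LA Pool.Agent.H18.LK.pf_AP
theorem scl_all : T_SCL := Pool.Agent.H3.LK.pf_SCL
theorem scq_all : T_SCQ := Pool.Agent.H3.LK.pf_SCQ
theorem ne_all : T_NE := Pool.Agent.H19.LK.pf_NE
theorem pi_all : T_PI := Pool.Agent.H59.LK.pf_PI hk_all int_all enl_all ne_all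
theorem fkl_all : T_FKL :=
  Pool.Agent.H58.LK.pf_FKL
    (Pool.Agent.H68.LK.pf_RP hk_all rps_all rpa_all (Pool.Agent.H17.LK.pf_RPT hk_all int_all)
      la_all scl_all)
    (Pool.Agent.H77.LK.pf_PWR hk_all int_all)
    (Pool.Agent.H81.LK.cnv hk_all int_all (Pool.Agent.H77.LK.pf_POL hk_all int_all)
      Pool.Agent.H58.LK.pf_PVO (Pool.Agent.H27.LK.pf_GRD Pool.Agent.H58.LK.pf_PVO
        Pool.Agent.H66.LK.pf_PLR) (Pool.Agent.H77.LK.pf_CNT hk_all int_all))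
    scq_all
theorem fk_all : T_FK := Pool.Agent.H90.LK.fk fkl_all enl_all
theorem chp_all : T_CHP := Pool.Agent.H31.LK.pf_CHP
theorem gv_all : T_GV := Pool.Agent.H99.LK.pf_GV
theorem mea_all : T_MEA := Pool.Agent.H81.LK.mea chp_all
theorem fl2_all : T_FL2 := Pool.Agent.H17.LK.pf_FL2 (Pool.Agent.H33.LK.pf_NRM gv_all chp_all) mea_all
theorem fl1_all : T_FL1 :=
  Pool.Agent.H7.LK.pf_FL1 qid_all int_all
    (Pool.Agent.H51.LK.pf_DIF gv_all
      (Pool.Agent.H54.LK.pf_COV gv_all Pool.Agent.H68.LK.pf_CH chp_all) chp_all) mea_all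
theorem fl3_all : T_FL3 :=
  Pool.Agent.H19.LK.pf_FL3 (Pool.Agent.H58.LK.pf_COR gv_all chp_all) mea_all

/-- the heat form of bounded functions with compact support in an open set -/
theorem cut_form {N : ℕ} (hN : 1 ≤ N) {K0 Ω : Set (E N)} (hK0c : IsCompact K0) (hΩ : IsOpen Ω)
    (hKΩ : K0 ⊆ Ω) {K : ℝ} (hK0 : 0 < K) (hK : K < lam N 1 Ω) :
    ∃ s₀ : ℝ, 0 < s₀ ∧ ∀ s : ℝ, 0 < s → s ≤ s₀ →
      ∀ f : E N → ℝ, Bd K0 f →
        K * (∫ x, f x ^ 2) ≤ ((∫ x, f x ^ 2) - Qf N s f) / s := by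
  obtain ⟨ρ0, hρ0⟩ := hK0c.isBounded.subset_ball (0 : E N)
  obtain ⟨ρ, hρd⟩ : ∃ ρ : ℝ, ρ = max ρ0 1 := ⟨_, rfl⟩
  have hρ : 0 < ρ := hρd ▸ lt_of_lt_of_le one_pos (le_max_right _ _)
  have hKρ : K0 ⊆ ball (0 : E N) ρ := hρ0.trans (ball_subset_ball (hρd ▸ le_max_left _ _))
  set Ω1 : Set (E N) := (fun x => (ρ⁻¹)⁻¹ • x) ⁻¹' Ω with hΩ1
  set K1 : Set (E N) := (fun x => ρ • x) ⁻¹' K0 with hK1
  have hK1e : K1 = (fun x : E N => ρ⁻¹ • x) '' K0 := by
    ext x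
    constructor
    · intro hx
      exact ⟨ρ • x, hx, by simp [smul_smul, inv_mul_cancel₀ hρ.ne']⟩
    · rintro ⟨y, hy, rfl⟩
      show ρ • ρ⁻¹ • y ∈ K0
      rw [smul_smul, mul_inv_cancel₀ hρ.ne', one_smul]
      exact hy
  have hK1c : IsCompact K1 := by
    rw [hK1e]
    exact hK0c.image (continuous_const_smul _)
  have hΩ1o : IsOpen Ω1 := hΩ.preimage (continuous_const_smul _)
  have hK1Ω : K1 ⊆ Ω1 := by
    intro x hx
    show (ρ⁻¹)⁻¹ • x ∈ Ω
    rw [inv_inv]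
    exact hKΩ hx
  have hK1B : K1 ⊆ ball (0 : E N) 1 := by
    intro x hx
    have h1 : ρ • x ∈ ball (0 : E N) ρ := hKρ hx
    rw [mem_ball_zero_iff, norm_smul, Real.norm_eq_abs, abs_of_pos hρ] at h1
    rw [mem_ball_zero_iff]
    exact (mul_lt_iff_lt_one_right hρ).1 h1
  have hlam : lam N 1 Ω1 = lam N 1 Ω * ρ ^ 2 := by
    rw [hΩ1, (scl_all N 1 ρ⁻¹ (by positivity)).2.1 Ω, inv_pow, div_inv_eq_mul]
  obtain ⟨s₁, hs₁, h⟩ := cut_form1 hk_all int_all rps_all rpa_all la_all hN hK1c hΩ1o hK1Ω hK1B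
    (K := K * ρ ^ 2) (by positivity) (by rw [hlam]; exact mul_lt_mul_of_pos_right hK (by positivity))
  refine ⟨s₁ * ρ ^ 2, by positivity, fun s hs hss f hf => ?_⟩
  obtain ⟨e1, e2⟩ := scq_all N s ρ f hs hρ
  have hf1 : Bd K1 (fun x => f (ρ • x)) := by
    obtain ⟨g1, ⟨M, hM⟩, g3⟩ := hf
    exact ⟨g1.comp (measurable_const_smul ρ), ⟨M, fun x => hM _⟩, fun x hx => g3 _ hx⟩
  have h1 := h (s / ρ ^ 2) (by positivity) (by rw [div_le_iff₀ (by positivity)]; exact hss) _ hf1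
  rw [e1, e2]
  rw [le_div_iff₀ (by positivity)] at h1
  rw [le_div_iff₀ hs]
  have h2 := mul_le_mul_of_nonneg_left h1 (show 0 ≤ ρ ^ N by positivity)
  calc K * (ρ ^ N * ∫ x, f (ρ • x) ^ 2) * s
      = ρ ^ N * (K * ρ ^ 2 * (∫ x, f (ρ • x) ^ 2) * (s / ρ ^ 2)) := by field_simp
    _ ≤ ρ ^ N * ((∫ x, f (ρ • x) ^ 2) - Qf N (s / ρ ^ 2) fun x => f (ρ • x)) := h2
    _ = _ := by ring

lemma key2 
    (N n : ℕ) (r b l c : ℝ) (Ω : Set (E N)) (hN : 1 ≤ N) (hn : 1 ≤ n) (hr : 0 < r) (hb : 1 ≤ b)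
    (hl : 0 < l) (hΩ : IsOpen Ω) (hvol : volume Ω = volume (ball (0 : E N) r))
    (hMD : M2 b l ≤ DD b l) (hM : 0 < M2 b l)
    (ψ : Fin n → E N → ℝ) (h1 : ∀ i, ContDiff ℝ (⊤ : ℕ∞) (ψ i))
    (h2 : ∀ i, HasCompactSupport (ψ i)) (h3 : ∀ i, tsupport (ψ i) ⊆ Ω)
    (h4 : ∀ i, ∫ x, ‖fderiv ℝ (ψ i) x‖ ^ 2 ≤ c * ∫ x, ψ i x ^ 2)
    (ho : ∀ i j, ∫ x, ψ i x * ψ j x = if i = j then (1 : ℝ) else 0)
    (K K' ε m₀ : ℝ) (hK0 : 0 ≤ K) (hK : K < lam N 1 (ball (0 : E N) 1))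
    (hK'0 : 0 < K') (hK' : K' < lam N 1 Ω) (hε : 0 < ε) (hε1 : ε ≤ 1)
    (hm : m₀ = Real.exp (1 - b ^ 2 / 2) + (b + l) ^ 4 / n) :
    K / r ^ 2 * (M2 b l * (1 + 2 / N * (Real.log (1 / m₀) - ε / m₀))) + (DD b l - M2 b l) * K' ≤
      DD b l * c := by
  have hN' : (0 : ℝ) < N := by exact_mod_cast hN
  have hn' : (0 : ℝ) < n := by exact_mod_cast hn
  have hb0 : 0 < b := by linarith
  have hm0 : 0 < m₀ := by rw [hm]; positivity
  obtain ⟨s₀, hs0, hF⟩ := fkl_all N K hN hK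
  have hcont : ∀ i, Continuous (ψ i) := fun i => (h1 i).continuous
  obtain ⟨hAo, hAb, hAΩ, hAV⟩ := vf_facts Ω ψ hcont h2 h3
  set A : Set (E N) := {x | vf ψ x ≠ 0} with hA
  have hAm : MeasurableSet A := hAo.measurableSet
  have hAvol : volume A ≤ volume (ball (0 : E N) r) := hvol ▸ measure_mono hAΩ
  have hWpos := vol_ball_pos N r hr
  set W := volume.real (ball (0 : E N) r) with hW
  have hAW : volume.real A ≤ W :=
    ENNReal.toReal_mono measure_ball_lt_top.ne hAvol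
  have hε' : 0 < ε ^ ((1 : ℝ) / N) := Real.rpow_pos_of_pos hε _
  -- the compact set
  set K0 : Set (E N) := ⋃ i, tsupport (ψ i) with hK0d
  have hK0c : IsCompact K0 := isCompact_iUnion h2
  have hK0Ω : K0 ⊆ Ω := iUnion_subset h3
  obtain ⟨s₁, hs1, hG⟩ := cut_form hN hK0c hΩ hK0Ω hK'0 hK'
  obtain ⟨s, hspos, hs_1, hs_2⟩ : ∃ s : ℝ, 0 < s ∧ s ≤ s₀ * (r * ε ^ ((1 : ℝ) / N)) ^ 2 ∧ s ≤ s₁ :=
    ⟨min (s₀ * (r * ε ^ ((1 : ℝ) / N)) ^ 2) s₁, lt_min (by positivity) hs1, min_le_left _ _,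
      min_le_right _ _⟩
  -- mass
  have hmass : ∫ x, ‖vf ψ x‖ ^ 2 = n := vf_mass ψ hcont h2 ho
  -- X
  have hBdn : Bd K0 (fun x => ‖vf ψ x‖) := by
    obtain ⟨hm1, ⟨Mb, hMb⟩, hz⟩ := hAV
    refine ⟨hm1.norm, ⟨Mb, fun x => ?_⟩, fun x hx => ?_⟩
    · rw [abs_of_nonneg (norm_nonneg _)]; exact hMb x
    · have : x ∉ A := by
        intro hxA
        obtain ⟨i, hi⟩ := vf_ne ψ x hxA
        exact hx (mem_iUnion.2 ⟨i, subset_tsupport _ hi⟩)
      simp [hz x this]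
  have hX := hG s hspos hs_2 (fun x => ‖vf ψ x‖) hBdn
  rw [hmass] at hX
  set X := (n : ℝ) - Qf N s (fun x => ‖vf ψ x‖) with hXdef
  -- Y
  have hY : ∑ i, ((∫ x, vf ψ x i ^ 2) - Qf N s (fun x => vf ψ x i)) ≤ s * (n * c) := by
    have : ∀ i ∈ (Finset.univ : Finset (Fin n)),
        ((∫ x, vf ψ x i ^ 2) - Qf N s (fun x => vf ψ x i)) ≤ s * c := by
      intro i _
      have e1 := enl_all N s (ψ i) hspos (h1 i) (h2 i)
      have e2 := h4 i
      have e3 : ∫ x, ψ i x ^ 2 = 1 := by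
        have := ho i i
        simp only [if_true] at this
        rw [← this]
        congr 1
        ext x
        ring
      rw [e3, mul_one] at e2
      calc ((∫ x, vf ψ x i ^ 2) - Qf N s (fun x => vf ψ x i)) ≤ s * ∫ x, ‖fderiv ℝ (ψ i) x‖ ^ 2 := e1
        _ ≤ s * c := mul_le_mul_of_nonneg_left e2 hspos.le
    calc _ ≤ ∑ _i : Fin n, s * c := Finset.sum_le_sum this
      _ = s * (n * c) := by simp; ring
  set Y := ∑ i, ((∫ x, vf ψ x i ^ 2) - Qf N s (fun x => vf ψ x i)) with hYdef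
  obtain ⟨hFa, hFb⟩ := fl1_all N n b l s A (vf ψ) hb0 hl hMD hspos hAm hAb hAV
  rw [hmass] at hFb
  obtain ⟨hGa, hGb⟩ := fl2_all N n b l A (vf ψ) hb0 hl hAm hAb hAV
  rw [hmass] at hGb
  obtain ⟨hHa, hHb⟩ := fl3_all N n b l A (vf ψ) hb hl hAm hAb hAV ho
  obtain ⟨-, -, hBg, -, hreg⟩ := mea_all N n b l A (vf ψ) hb0 hl hAm hAV
  set I : E n → ℝ := fun g => ∫ x, GG b l g (vf ψ x) ^ 2 with hI
  set L := Real.log (1 / m₀) with hL
  set a := K / r ^ 2 * (1 + 2 / N * (1 + L - ε / m₀)) with ha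
  set β := K / r ^ 2 * (2 / N) / (m₀ * W) with hβ
  have hβ0 : 0 ≤ β := by positivity
  have hpt : ∀ g : E n, a * I g - β * (volume.real (reg b (vf ψ) g) * I g) ≤
      (I g - Qf N s (fun x => GG b l g (vf ψ x))) / s := by
    intro g
    have hI0 : 0 ≤ I g := integral_nonneg (fun x => sq_nonneg _)
    obtain ⟨hrm, -, hrA⟩ := hreg g
    set xg := volume.real (reg b (vf ψ) g) / W with hxg
    have hxg0 : 0 ≤ xg := by positivity
    set y := max xg ε with hy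
    have hy0 : 0 < y := lt_of_lt_of_le hε (le_max_right _ _)
    obtain ⟨hρ0, hρN, hρK⟩ := rad_fact N hN r y K m₀ hr hy0 hK0 hm0
    set ρ := r * y ^ ((1 : ℝ) / N) with hρ
    have hsρ : s ≤ s₀ * ρ ^ 2 := by
      refine hs_1.trans ?_
      apply mul_le_mul_of_nonneg_left _ hs0.le
      apply pow_le_pow_left₀ (by positivity)
      rw [hρ]
      apply mul_le_mul_of_nonneg_left _ hr.le
      exact Real.rpow_le_rpow hε.le (le_max_right _ _) (by positivity)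
    have hregb : Bornology.IsBounded (reg b (vf ψ) g) := hAb.subset hrA
    have hvr : volume (reg b (vf ψ) g) ≤ volume (ball (0 : E N) ρ) := by
      have hfin : volume (reg b (vf ψ) g) ≠ ∞ :=
        ((measure_mono hrA).trans_lt (hAvol.trans_lt measure_ball_lt_top)).ne
      rw [← ENNReal.toReal_le_toReal hfin measure_ball_lt_top.ne]
      change volume.real _ ≤ volume.real _
      rw [vol_ball N ρ hρ0, hρN]
      have e1 : volume.real (reg b (vf ψ) g) = xg * W := by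
        rw [hxg]; field_simp
      rw [e1, hW, vol_ball N r hr]
      have e2 : xg ≤ y := le_max_left _ _
      have e3 : 0 < volume.real (ball (0 : E N) 1) := vol_ball_pos N 1 one_pos
      calc xg * (r ^ N * volume.real (ball (0 : E N) 1))
          ≤ y * (r ^ N * volume.real (ball (0 : E N) 1)) :=
            mul_le_mul_of_nonneg_right e2 (by positivity)
        _ = r ^ N * y * volume.real (ball (0 : E N) 1) := by ring
    have hmain := hF ρ s (reg b (vf ψ) g) (fun x => GG b l g (vf ψ x)) hρ0 hspos hsρ hrm hregb hvr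
      (hBg g).1
    refine le_trans ?_ hmain
    change a * I g - β * (volume.real (reg b (vf ψ) g) * I g) ≤ K / ρ ^ 2 * I g
    have hyx : y ≤ xg + ε := max_le (by linarith) (by linarith)
    have e5 : a * I g - β * (volume.real (reg b (vf ψ) g) * I g) =
        K / r ^ 2 * (1 + 2 / N * (1 + L - (xg + ε) / m₀)) * I g := by
      rw [ha, hβ, hxg]; field_simp; ring
    rw [e5]
    apply mul_le_mul_of_nonneg_right _ hI0
    refine le_trans ?_ hρK
    apply mul_le_mul_of_nonneg_left _ (by positivity)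
    have : (y : ℝ) / m₀ ≤ (xg + ε) / m₀ := div_le_div_of_nonneg_right hyx hm0.le
    have h2N : (0 : ℝ) ≤ 2 / N := by positivity
    have := mul_le_mul_of_nonneg_left this h2N
    have e6 : 2 / (N : ℝ) * (1 + L - (xg + ε) / m₀) = 2 / N * (1 + L) - 2 / N * ((xg + ε) / m₀) := by
      ring
    have e7 : 2 / (N : ℝ) * (1 + L - y / m₀) = 2 / N * (1 + L) - 2 / N * (y / m₀) := by ring
    rw [e6, e7]
    linarith
  -- integrate
  have hint := integral_mono (μ := stdGaussian (E n))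
    (f := fun g => a * I g - β * (volume.real (reg b (vf ψ) g) * I g))
    (g := fun g => (I g - Qf N s (fun x => GG b l g (vf ψ x))) / s)
    ((hGa.const_mul a).sub (hHa.const_mul β)) (hFa.div_const s) hpt
  rw [integral_sub (hGa.const_mul a) (hHa.const_mul β), integral_const_mul, integral_const_mul,
    integral_div] at hint
  rw [hGb] at hint
  -- bounds
  have hE : volume.real A * (M2 b l * (n * Real.exp (1 - b ^ 2 / 2) + (b + l) ^ 4)) ≤
      W * (M2 b l * (n * m₀)) := by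
    have : (n : ℝ) * Real.exp (1 - b ^ 2 / 2) + (b + l) ^ 4 = n * m₀ := by
      rw [hm]; field_simp
    rw [this]
    exact mul_le_mul_of_nonneg_right hAW (by positivity)
  have hH := hHb.trans hE
  have hβH := mul_le_mul_of_nonneg_left hH hβ0
  have e8 : β * (W * (M2 b l * (n * m₀))) = K / r ^ 2 * (2 / N) * (M2 b l * n) := by
    rw [hβ]; field_simp
  rw [e8] at hβH
  have hR : (∫ c, ((∫ x, GG b l c (vf ψ x) ^ 2) - Qf N s (fun x => GG b l c (vf ψ x)))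
      ∂(stdGaussian (E n))) / s ≤ (M2 b l - DD b l) * (K' * n) + DD b l * (n * c) := by
    rw [div_le_iff₀ hspos]
    refine hFb.trans ?_
    have e9 : K' * n * s ≤ X := by
      rw [← le_div_iff₀ hspos]; exact hX
    have e10 : (M2 b l - DD b l) * X ≤ (M2 b l - DD b l) * (K' * n * s) :=
      mul_le_mul_of_nonpos_left e9 (by linarith)
    have e11 : DD b l * Y ≤ DD b l * (s * (n * c)) :=
      mul_le_mul_of_nonneg_left hY (by linarith)
    nlinarith [e10, e11]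
  have hfin : a * (M2 b l * n) - K / r ^ 2 * (2 / N) * (M2 b l * n) ≤
      (M2 b l - DD b l) * (K' * n) + DD b l * (n * c) := by
    refine le_trans ?_ (hint.trans hR)
    linarith
  have e12 : a * (M2 b l * n) - K / r ^ 2 * (2 / N) * (M2 b l * n) =
      n * (K / r ^ 2 * (M2 b l + M2 b l * (2 / N * (L - ε / m₀)))) := by
    rw [ha]; ring
  rw [e12] at hfin
  have e13 : (M2 b l - DD b l) * (K' * n) + DD b l * (n * c) =
      n * ((M2 b l - DD b l) * K' + DD b l * c) := by ring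
  rw [e13] at hfin
  have hfin2 := le_of_mul_le_mul_left hfin hn'
  have e14 : K / r ^ 2 * (M2 b l * (1 + 2 / N * (L - ε / m₀))) =
      K / r ^ 2 * (M2 b l + M2 b l * (2 / N * (L - ε / m₀))) := by
    ring
  rw [e14]
  linarith

/-- every admissible constant is at least the Faber-Krahn constant, and `adm` is not empty -/
theorem lam_ge {N n : ℕ} {r : ℝ} {Ω : Set (E N)} (hN : 1 ≤ N) (hn : 1 ≤ n) (hr : 0 < r)
    (hΩ : IsOpen Ω) (hvol : volume Ω = volume (ball (0 : E N) r)) :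
    lam N 1 (ball (0 : E N) r) ≤ lam N n Ω := by
  rw [(scl_all N 1 r hr).2.2]
  apply le_csInf (ne_all N n Ω hN hΩ (nonempty_of_vol hr hvol))
  intro c hc
  exact fk_all N n r c Ω hN hn hr hΩ hvol.le hc

theorem lam_ball_pos {N : ℕ} {r : ℝ} (hN : 1 ≤ N) (hr : 0 < r) :
    0 < lam N 1 (ball (0 : E N) r) := by
  rw [(scl_all N 1 r hr).2.2]
  exact div_pos (pi_all N hN) (by positivity)

/-- (A): the Gaussian cut, with the first eigenvalue of the set itself -/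
theorem partA (N n : ℕ) (r b : ℝ) (Ω : Set (E N)) (hN : 1 ≤ N) (hn : 1 ≤ n) (hr : 0 < r)
    (hb : 1 ≤ b) (hΩ : IsOpen Ω) (hvol : volume Ω = volume (ball (0 : E N) r)) :
    lam N 1 (ball (0 : E N) r) * (M2 b (b ^ (-(1 / 3) : ℝ)) * (1 + 2 / N *
      Real.log (1 / (Real.exp (1 - b ^ 2 / 2) + (b + b ^ (-(1 / 3) : ℝ)) ^ 4 / n)))) +
      (DD b (b ^ (-(1 / 3) : ℝ)) - M2 b (b ^ (-(1 / 3) : ℝ))) * lam N 1 Ω ≤
      DD b (b ^ (-(1 / 3) : ℝ)) * lam N n Ω := by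
  obtain ⟨hM, hMD, -⟩ := Pool.Agent.H7.LK.pf_CHI b hb
  set l : ℝ := b ^ (-(1 / 3) : ℝ) with hl
  have hl0 : 0 < l := Real.rpow_pos_of_pos (by linarith) _
  have hD : 0 < DD b l := lt_of_lt_of_le hM hMD
  have hlΩ : 0 < lam N 1 Ω := lt_of_lt_of_le (lam_ball_pos hN hr) (lam_ge hN le_rfl hr hΩ hvol)
  have hall : ∀ c ∈ adm N n Ω, lam N 1 (ball (0 : E N) r) * (M2 b l * (1 + 2 / N *
      Real.log (1 / (Real.exp (1 - b ^ 2 / 2) + (b + l) ^ 4 / n)))) +
      (DD b l - M2 b l) * lam N 1 Ω ≤ DD b l * c := by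
    intro c hc
    obtain ⟨V, hV, hVp⟩ := hc
    obtain ⟨ψ, hψV, ho⟩ := Pool.Agent.H90.LK.onb N n V hn hV
      (fun v hv => ⟨(hVp v hv).1.continuous, (hVp v hv).2.1⟩)
    set m₀ : ℝ := Real.exp (1 - b ^ 2 / 2) + (b + l) ^ 4 / n with hm
    rw [(scl_all N 1 r hr).2.2]
    have hΛ := pi_all N hN
    set Λ := lam N 1 (ball (0 : E N) 1) with hΛd
    set Λ1 := lam N 1 Ω with hΛ1
    have hk : ∀ δ : ℝ, 0 < δ → δ < 1 →
        (Λ * (1 - δ)) / r ^ 2 * (M2 b l * (1 + 2 / N * (Real.log (1 / m₀) - δ / m₀))) +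
          (DD b l - M2 b l) * (Λ1 * (1 - δ)) ≤ DD b l * c := by
      intro δ h0 h1
      exact key2 N n r b l c Ω hN hn hr hb hl0 hΩ hvol hMD hM ψ
        (fun i => (hVp _ (hψV i)).1) (fun i => (hVp _ (hψV i)).2.1)
        (fun i => (hVp _ (hψV i)).2.2.1)
        (fun i => (hVp _ (hψV i)).2.2.2) ho (Λ * (1 - δ)) (Λ1 * (1 - δ)) δ m₀
        (mul_nonneg hΛ.le (by linarith))
        (by nlinarith) (mul_pos hlΩ (by linarith)) (by nlinarith) h0 h1.le hm
    have hcont : Continuous (fun δ : ℝ =>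
        (Λ * (1 - δ)) / r ^ 2 * (M2 b l * (1 + 2 / N * (Real.log (1 / m₀) - δ / m₀))) +
          (DD b l - M2 b l) * (Λ1 * (1 - δ))) := by
      fun_prop
    have hlim := (hcont.tendsto 0).mono_left (nhdsWithin_le_nhds (s := Ioi (0 : ℝ)))
    have hle : (Λ * (1 - 0)) / r ^ 2 * (M2 b l * (1 + 2 / N * (Real.log (1 / m₀) - 0 / m₀))) +
          (DD b l - M2 b l) * (Λ1 * (1 - 0)) ≤ DD b l * c := by
      apply le_of_tendsto hlim
      filter_upwards [Ioo_mem_nhdsGT (zero_lt_one (α := ℝ))] with δ hδ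
      exact hk δ hδ.1 hδ.2
    simpa using hle
  have h2 : (lam N 1 (ball (0 : E N) r) * (M2 b l * (1 + 2 / N *
      Real.log (1 / (Real.exp (1 - b ^ 2 / 2) + (b + l) ^ 4 / n)))) +
      (DD b l - M2 b l) * lam N 1 Ω) / DD b l ≤ lam N n Ω := by
    apply le_csInf (ne_all N n Ω hN hΩ (nonempty_of_vol hr hvol))
    intro c hc
    rw [div_le_iff₀ hD]
    linarith [hall c hc]
  rw [div_le_iff₀ hD] at h2
  linarith

end Pool.Agent.H85.LNN
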