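import Pool.Agent.H69.LNN.Lib
import Pool.Agent.H10.LQ.O2

/-! MP_8f7db2_an, all dimensions: row AG of board lnn_modules, the angular energy -/

set_option autoImplicit false

open MeasureTheory Metric Set
open scoped ENNReal
open Pool.Agent.H85.LK (E adm lam Ann)
open Pool.Agent.H69.LQ Pool.Agent.H69.LNN

namespace Pool.Agent.H85.LNN

variable {N : ℕ}

/-! ### The angular derivatives -/

/-- the direction of an angular derivative -/
noncomputable def rot (i j : Fin N) (x : E N) : E N :=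
  x i • EuclideanSpace.single j (1 : ℝ) - x j • EuclideanSpace.single i (1 : ℝ)

theorem rot_cont (i j : Fin N) : Continuous (rot (N := N) i j) := by
  unfold rot
  fun_prop

theorem LL_eq (i j : Fin N) (f : E N → ℝ) (x : E N) : LL i j f x = fderiv ℝ f x (rot i j x) := by
  unfold LL rot
  rw [map_sub, map_smul, map_smul, smul_eq_mul, smul_eq_mul]

theorem LL_dil {v : E N → ℝ} (hv : Differentiable ℝ v) (i j : Fin N) (r : ℝ) (x : E N) :
    LL i j (fun y => v (r • y)) x = fderiv ℝ v (r • x) (r • rot i j x) := by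
  rw [LL_eq]
  have h1 : HasFDerivAt (fun y : E N => r • y) (r • ContinuousLinearMap.id ℝ (E N)) x :=
    (hasFDerivAt_id x).const_smul r
  have h2 : HasFDerivAt (fun y : E N => v (r • y))
      ((fderiv ℝ v (r • x)).comp (r • ContinuousLinearMap.id ℝ (E N))) x :=
    HasFDerivAt.comp (g := v) x (hv (r • x)).hasFDerivAt h1
  rw [h2.fderiv]
  rfl

theorem LL_sub {f g : E N → ℝ} (hf : Differentiable ℝ f) (hg : Differentiable ℝ g) (c : ℝ)
    (i j : Fin N) (x : E N) :
    LL i j (fun y => f y - c * g y) x = LL i j f x - c * LL i j g x := by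
  rw [LL_eq, LL_eq, LL_eq]
  have h := (hf x).hasFDerivAt.sub ((hg x).hasFDerivAt.const_mul c)
  have h2 : fderiv ℝ (fun y => f y - c * g y) x = fderiv ℝ f x - c • fderiv ℝ g x := h.fderiv
  rw [h2]
  rfl

/-- derivative of the coefficient of the profile -/
theorem LL_TT {L : ℝ} (hp : Continuous (ph N L 1)) {v : E N → ℝ} (hv : ContDiff ℝ (⊤ : ℕ∞) v)
    (hT : Differentiable ℝ (TT L v)) (i j : Fin N) (x : E N) :
    LL i j (TT L v) x = Tr N L (fun r => LL i j (fun y => v (r • y)) x) := by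
  have hvd : Differentiable ℝ v := hv.differentiable (by simp)
  have hv' : Continuous (fderiv ℝ v) := hv.continuous_fderiv (by simp)
  have hvc : Continuous v := hv.continuous
  obtain ⟨u, hu⟩ : ∃ u, u = rot i j x := ⟨_, rfl⟩
  have hF' : Continuous fun q : ℝ × ℝ => q.2 ^ (N - 3) *
      (fderiv ℝ v (q.2 • (x + q.1 • u)) (q.2 • u) * ph N L 1 q.2) := by
    have h1 : Continuous fun q : ℝ × ℝ => fderiv ℝ v (q.2 • (x + q.1 • u)) (q.2 • u) :=
      (hv'.comp (by fun_prop : Continuous fun q : ℝ × ℝ => q.2 • (x + q.1 • u))).clm_apply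
        (by fun_prop)
    fun_prop
  obtain ⟨C, hC⟩ := ((isCompact_Icc (a := (-1 : ℝ)) (b := 1)).prod
    (isCompact_Icc (a := (0 : ℝ)) (b := 1))).exists_bound_of_continuousOn hF'.continuousOn
  have hder := intervalIntegral.hasDerivAt_integral_of_dominated_loc_of_deriv_le
    (𝕜 := ℝ) (μ := volume) (a := (0 : ℝ)) (b := 1) (x₀ := (0 : ℝ)) (s := Icc (-1 : ℝ) 1)
    (bound := fun _ => C)
    (F := fun (t r : ℝ) => r ^ (N - 3) * (v (r • (x + t • u)) * ph N L 1 r))
    (F' := fun (t r : ℝ) => r ^ (N - 3) *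
      (fderiv ℝ v (r • (x + t • u)) (r • u) * ph N L 1 r))
    (Icc_mem_nhds (by norm_num) (by norm_num))
    (Filter.Eventually.of_forall fun t => by
      have : Continuous fun r : ℝ => r ^ (N - 3) * (v (r • (x + t • u)) * ph N L 1 r) := by
        fun_prop
      exact this.aestronglyMeasurable)
    (by
      have : Continuous fun r : ℝ => r ^ (N - 3) * (v (r • (x + (0 : ℝ) • u)) * ph N L 1 r) := by
        fun_prop
      exact this.intervalIntegrable _ _)
    (by
      have : Continuous fun r : ℝ => r ^ (N - 3) *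
          (fderiv ℝ v (r • (x + (0 : ℝ) • u)) (r • u) * ph N L 1 r) :=
        hF'.comp (by fun_prop : Continuous fun r : ℝ => ((0 : ℝ), r))
      exact this.aestronglyMeasurable)
    (Filter.Eventually.of_forall fun r hr t ht => by
      rw [uIoc_of_le zero_le_one] at hr
      exact hC (t, r) ⟨ht, ⟨hr.1.le, hr.2⟩⟩)
    intervalIntegrable_const
    (Filter.Eventually.of_forall fun r _ t _ => by
      have h1 : HasDerivAt (fun t : ℝ => r • (x + t • u)) (r • u) t := by
        have h := (((hasDerivAt_id t).smul_const u).const_add x).const_smul r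
        rw [one_smul] at h
        exact h
      have h2 : HasDerivAt (fun t : ℝ => v (r • (x + t • u)))
          (fderiv ℝ v (r • (x + t • u)) (r • u)) t :=
        (hvd (r • (x + t • u))).hasFDerivAt.comp_hasDerivAt t h1
      exact (h2.mul_const _).const_mul _)
  have h3 := hder.2.const_mul (NP N L)⁻¹
  have h4 : HasDerivAt (fun t : ℝ => TT L v (x + t • u)) (fderiv ℝ (TT L v) x u) 0 := by
    have h1 : HasDerivAt (fun t : ℝ => x + t • u) u 0 := by
      have h := ((hasDerivAt_id (0 : ℝ)).smul_const u).const_add x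
      rw [one_smul] at h
      exact h
    have h2 : HasFDerivAt (TT L v) (fderiv ℝ (TT L v) x) (x + (0 : ℝ) • u) := by
      rw [zero_smul, add_zero]
      exact (hT x).hasFDerivAt
    exact h2.comp_hasDerivAt (0 : ℝ) h1
  have h5 := h4.unique h3
  rw [LL_eq, ← hu, h5]
  unfold Tr
  congr 1
  refine intervalIntegral.integral_congr fun r _ => ?_
  show r ^ (N - 3) * (fderiv ℝ v (r • (x + (0 : ℝ) • u)) (r • u) * ph N L 1 r) =
    r ^ (N - 3) * (LL i j (fun y => v (r • y)) x * ph N L 1 r)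
  rw [LL_dil hvd, zero_smul, add_zero, ← hu]

/-! ### Rays -/

/-- the part orthogonal to the profile -/
theorem ag_proj {L : ℝ} (hp : Continuous (ph N L 1)) (hNP : NP N L ≠ 0) {f : ℝ → ℝ}
    (hf : Continuous f) :
    ∫ r in (0 : ℝ)..1, r ^ (N - 3) * (f r - ph N L 1 r * Tr N L f) ^ 2 =
      (∫ r in (0 : ℝ)..1, r ^ (N - 3) * f r ^ 2) - NP N L * Tr N L f ^ 2 := by
  obtain ⟨t, ht⟩ : ∃ t, t = Tr N L f := ⟨_, rfl⟩
  have h2 : ∫ r in (0 : ℝ)..1, r ^ (N - 3) * (f r * ph N L 1 r) = NP N L * t := by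
    rw [ht]
    unfold Tr
    field_simp
  rw [← ht]
  have h4 : ∫ r in (0 : ℝ)..1, r ^ (N - 3) * (f r - ph N L 1 r * t) ^ 2 =
      (∫ r in (0 : ℝ)..1, r ^ (N - 3) * f r ^ 2) -
        2 * t * (∫ r in (0 : ℝ)..1, r ^ (N - 3) * (f r * ph N L 1 r)) +
        t ^ 2 * NP N L := by
    unfold NP
    rw [← intervalIntegral.integral_const_mul, ← intervalIntegral.integral_const_mul,
      ← intervalIntegral.integral_sub, ← intervalIntegral.integral_add]
    · refine intervalIntegral.integral_congr fun r _ => ?_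
      ring
    · exact Continuous.intervalIntegrable (by fun_prop) _ _
    · exact Continuous.intervalIntegrable (by fun_prop) _ _
    · exact Continuous.intervalIntegrable (by fun_prop) _ _
    · exact Continuous.intervalIntegrable (by fun_prop) _ _
  rw [h4, h2]
  ring

theorem ag_sum {k : ℕ} {F : Fin N → Fin N → ℝ → ℝ} (hF : ∀ i j, Continuous (F i j)) :
    ∫ r in (0 : ℝ)..1, r ^ k * (1 / 2 * ∑ i, ∑ j, F i j r) =
      1 / 2 * ∑ i, ∑ j, ∫ r in (0 : ℝ)..1, r ^ k * F i j r := by
  have h1 : ∀ r : ℝ, r ^ k * (1 / 2 * ∑ i, ∑ j, F i j r) =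
      1 / 2 * ∑ i, ∑ j, r ^ k * F i j r := fun r => by
    rw [mul_left_comm, Finset.mul_sum]
    congr 1
    refine Finset.sum_congr rfl fun i _ => ?_
    rw [Finset.mul_sum]
  simp only [h1]
  have hc : ∀ i j, Continuous fun r : ℝ => r ^ k * F i j r := fun i j => by
    have := hF i j
    fun_prop
  rw [intervalIntegral.integral_const_mul, intervalIntegral.integral_finsetSum]
  · congr 1
    refine Finset.sum_congr rfl fun i _ => ?_
    rw [intervalIntegral.integral_finsetSum]
    exact fun j _ => (hc i j).intervalIntegrable _ _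
  · exact fun i _ => (continuous_finsetSum _ fun j _ => hc i j).intervalIntegrable _ _

/-! ### Fubini -/

theorem fubP {F : ℝ × Sp N → ℝ} (hF : Continuous F) {Φ : Sp N → ℝ} (hΦ : BM Φ) {a b : ℝ}
    (hab : a ≤ b) :
    IntervalIntegrable (fun r => av (fun θ => Φ θ * F (r, θ))) volume a b ∧
      av (fun θ => Φ θ * ∫ r in a..b, F (r, θ)) = ∫ r in a..b, av (fun θ => Φ θ * F (r, θ)) := by
  obtain ⟨hm, M, hM⟩ := hΦ
  have h1 : IntegrableOn F (Icc a b ×ˢ univ) ((volume : Measure ℝ).prod (mS N)) :=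
    hF.continuousOn.integrableOn_compact (isCompact_Icc.prod isCompact_univ)
  have h2 : Integrable F (((volume : Measure ℝ).restrict (Ioc a b)).prod (mS N)) := by
    have h3 := h1.mono_set (prod_mono Ioc_subset_Icc_self Subset.rfl)
    rw [IntegrableOn, ← Measure.prod_restrict, Measure.restrict_univ] at h3
    exact h3
  have h3 : Integrable (fun q : ℝ × Sp N => Φ q.2 * F q)
      (((volume : Measure ℝ).restrict (Ioc a b)).prod (mS N)) :=
    h2.bdd_mul (hm.comp measurable_snd).aestronglyMeasurable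
      (Filter.Eventually.of_forall fun q => hM q.2)
  constructor
  · rw [intervalIntegrable_iff_integrableOn_Ioc_of_le hab]
    exact h3.integral_prod_left
  · unfold av
    simp only [intervalIntegral.integral_of_le hab]
    have h4 := integral_integral_swap (f := fun (r : ℝ) (θ : Sp N) => Φ θ * F (r, θ)) h3
    rw [h4]
    congr 1
    funext θ
    rw [integral_const_mul]

/-- the logarithmic Sobolev inequality, integrated along the rays -/
theorem ag_int (hCO : T_CO) (hLSD : T_LSD) (h3 : 3 ≤ N) {Φ : Sp N → ℝ} (hΦ : BM Φ)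
    {W : ℝ → E N → ℝ} (hW : ∀ r, ContDiff ℝ (⊤ : ℕ∞) (W r))
    (hc : Continuous fun q : ℝ × Sp N => W q.1 (q.2 : E N))
    (hG : Continuous fun q : ℝ × Sp N => Gs (W q.1) (q.2 : E N)) {a b : ℝ} (ha : 0 ≤ a)
    (hab : a ≤ b) :
    ((N : ℝ) - 2) / 2 * (av (fun θ => Φ θ * ∫ r in a..b, r ^ (N - 3) * W r (θ : E N) ^ 2) -
      Real.log (av fun θ => Real.exp (Φ θ)) *
        av (fun θ : Sp N => ∫ r in a..b, r ^ (N - 3) * W r (θ : E N) ^ 2)) ≤
      ∫ r in a..b, r ^ (N - 3) * av (fun θ : Sp N => Gs (W r) (θ : E N)) := by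
  have h2 : 2 ≤ N := by omega
  have hn : (0 : ℝ) < (N : ℝ) - 2 := by
    have : (3 : ℝ) ≤ N := by exact_mod_cast h3
    linarith
  have hF : Continuous fun q : ℝ × Sp N => q.1 ^ (N - 3) * W q.1 (q.2 : E N) ^ 2 :=
    (continuous_fst.pow _).mul (hc.pow 2)
  obtain ⟨hi, he⟩ := fubP hF hΦ hab
  have he1 := Pool.Agent.H10.LQ.fub hF hab
  have hcav := (hCO N h2).1 _ hF
  have hGav := (hCO N h2).1 _ hG
  rw [he, he1]
  obtain ⟨l, hl⟩ : ∃ l, l = Real.log (av fun θ => Real.exp (Φ θ)) := ⟨_, rfl⟩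
  rw [← hl, ← intervalIntegral.integral_const_mul l,
    ← intervalIntegral.integral_sub hi ((hcav.intervalIntegrable _ _).const_mul l),
    ← intervalIntegral.integral_const_mul]
  refine intervalIntegral.integral_mono_on hab
    ((hi.sub ((hcav.intervalIntegrable _ _).const_mul l)).const_mul _) ?_ fun r hr => ?_
  · refine Continuous.intervalIntegrable ?_ _ _
    exact (continuous_pow _).mul hGav
  · have h := hLSD N (W r) Φ h3 (hW r) hΦ
    rw [← hl] at h
    have hr0 : 0 ≤ r := ha.trans hr.1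
    have e1 : ∀ θ : Sp N, rs (W r) 1 θ = W r (θ : E N) := fun θ => by
      unfold rs
      rw [one_smul]
    simp only [e1] at h
    have e2 : av (fun θ : Sp N => Φ θ * (r ^ (N - 3) * W r (θ : E N) ^ 2)) =
        r ^ (N - 3) * av (fun θ : Sp N => Φ θ * W r (θ : E N) ^ 2) := by
      rw [← av_const_mul]
      congr 1
      funext θ
      ring
    have e3 : av (fun θ : Sp N => r ^ (N - 3) * W r (θ : E N) ^ 2) =
        r ^ (N - 3) * av (fun θ : Sp N => W r (θ : E N) ^ 2) := av_const_mul _ _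
    show ((N : ℝ) - 2) / 2 * (av (fun θ : Sp N => Φ θ * (r ^ (N - 3) * W r (θ : E N) ^ 2)) -
      l * av (fun θ : Sp N => r ^ (N - 3) * W r (θ : E N) ^ 2)) ≤ _
    rw [e2, e3]
    have hk : 0 ≤ ((N : ℝ) - 2) / 2 * r ^ (N - 3) := by positivity
    have h4 := mul_le_mul_of_nonneg_left h hk
    have h5 : ((N : ℝ) - 2) / 2 * r ^ (N - 3) *
        (2 / ((N : ℝ) - 2) * av (fun θ : Sp N => Gs (W r) (θ : E N)) +
          l * av (fun θ : Sp N => W r (θ : E N) ^ 2)) =
        r ^ (N - 3) * av (fun θ : Sp N => Gs (W r) (θ : E N)) +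
          ((N : ℝ) - 2) / 2 * r ^ (N - 3) * (l * av (fun θ : Sp N => W r (θ : E N) ^ 2)) := by
      field_simp
    rw [h5] at h4
    nlinarith [h4]

theorem pf_AG (hCO : T_CO) (hLSD : T_LSD) (hPH : T_PH) (hNB : T_NB) (hTS : T_TS) : T_AG := by
  intro N L v Φ h3 hFz hTF hΦ
  have h2 : 2 ≤ N := by omega
  have hv : ContDiff ℝ (⊤ : ℕ∞) v := hTF.smooth
  have hvd : Differentiable ℝ v := hv.differentiable (by simp)
  have hv' : Continuous (fderiv ℝ v) := hv.continuous_fderiv (by simp)
  have hvc : Continuous v := hv.continuous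
  have hp : Continuous (ph N L 1) := ((hPH N L h2).2.1 1).1.continuous
  have hNP : 0 < NP N L := (hNB N L h3 hFz).1
  have hT : ContDiff ℝ (⊤ : ℕ∞) (TT L v) := (hTS N L h3).1 v hv
  have hTd : Differentiable ℝ (TT L v) := hT.differentiable (by simp)
  have hTc : Continuous (TT L v) := hT.continuous
  have hT' : Continuous (fderiv ℝ (TT L v)) := hT.continuous_fderiv (by simp)
  have hB : 1 ≤ bb N := by
    unfold bb
    have : 0 ≤ 20 / Real.sqrt N := by positivity
    linarith
  -- the functions `V r` and `W r`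
  obtain ⟨V, hV⟩ : ∃ V : ℝ → E N → ℝ, V = fun r y => v (r • y) := ⟨_, rfl⟩
  obtain ⟨W, hW⟩ : ∃ W : ℝ → E N → ℝ, W = fun r y => v (r • y) - ph N L 1 r * TT L v y :=
    ⟨_, rfl⟩
  have hVs : ∀ r, ContDiff ℝ (⊤ : ℕ∞) (V r) := fun r => by
    rw [hV]
    exact hv.comp (contDiff_const_smul r)
  have hWs : ∀ r, ContDiff ℝ (⊤ : ℕ∞) (W r) := fun r => by
    have h := (hVs r).sub (contDiff_const.mul hT : ContDiff ℝ (⊤ : ℕ∞)
      fun y => ph N L 1 r * TT L v y)
    rw [hV] at h
    rw [hW]
    exact h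
  have hVc : Continuous fun q : ℝ × Sp N => V q.1 (q.2 : E N) := by
    rw [hV]
    exact Pool.Agent.H10.LQ.rs_cont2 hvc
  have hWc : Continuous fun q : ℝ × Sp N => W q.1 (q.2 : E N) := by
    have h1 : Continuous fun q : ℝ × Sp N => v (q.1 • (q.2 : E N)) :=
      Pool.Agent.H10.LQ.rs_cont2 hvc
    have h2 : Continuous fun q : ℝ × Sp N => ph N L 1 q.1 * TT L v (q.2 : E N) := by fun_prop
    rw [hW]
    exact h1.sub h2
  -- the angular derivatives
  have hLV : ∀ i j, Continuous fun q : ℝ × Sp N => LL i j (V q.1) (q.2 : E N) := by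
    intro i j
    rw [hV]
    simp only [LL_dil hvd]
    have h1 : Continuous fun q : ℝ × Sp N => fderiv ℝ v (q.1 • (q.2 : E N)) :=
      hv'.comp (by fun_prop)
    have h2 : Continuous fun q : ℝ × Sp N => q.1 • rot i j (q.2 : E N) :=
      continuous_fst.smul ((rot_cont i j).comp (by fun_prop))
    exact h1.clm_apply h2
  have hLT : ∀ i j, Continuous fun θ : Sp N => LL i j (TT L v) (θ : E N) := by
    intro i j
    simp only [LL_eq]
    exact (hT'.comp continuous_subtype_val).clm_apply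
      ((rot_cont i j).comp continuous_subtype_val)
  have hLW : ∀ (i j : Fin N) (r : ℝ) (x : E N),
      LL i j (W r) x = LL i j (V r) x - ph N L 1 r * LL i j (TT L v) x := by
    intro i j r x
    have h := LL_sub ((hVs r).differentiable (by simp)) hTd (ph N L 1 r) i j x
    rw [hV] at h ⊢
    rw [hW]
    exact h
  have hLTV : ∀ (i j : Fin N) (x : E N),
      LL i j (TT L v) x = Tr N L (fun r => LL i j (V r) x) := by
    intro i j x
    rw [hV]
    exact LL_TT hp hv hTd i j x
  have hGV : Continuous fun q : ℝ × Sp N => Gs (V q.1) (q.2 : E N) := by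
    unfold Gs
    exact continuous_const.mul (continuous_finsetSum _ fun i _ =>
      continuous_finsetSum _ fun j _ => (hLV i j).pow 2)
  have hGW : Continuous fun q : ℝ × Sp N => Gs (W q.1) (q.2 : E N) := by
    unfold Gs
    refine continuous_const.mul (continuous_finsetSum _ fun i _ =>
      continuous_finsetSum _ fun j _ => ?_)
    simp only [hLW]
    have h1 := hLV i j
    have h2 := hLT i j
    exact (h1.sub ((hp.comp continuous_fst).mul (h2.comp continuous_snd))).pow 2
  have hGT : BM fun θ : Sp N => Gs (TT L v) (θ : E N) := by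
    refine BM_cont ?_
    unfold Gs
    exact continuous_const.mul (continuous_finsetSum _ fun i _ =>
      continuous_finsetSum _ fun j _ => (hLT i j).pow 2)
  -- the energy of the part orthogonal to the profile
  have hray : ∀ θ : Sp N, ∫ r in (0 : ℝ)..1, r ^ (N - 3) * Gs (W r) (θ : E N) =
      (∫ r in (0 : ℝ)..1, r ^ (N - 3) * Gs (V r) (θ : E N)) -
        NP N L * Gs (TT L v) (θ : E N) := by
    intro θ
    have hc1 : ∀ i j, Continuous fun r : ℝ => LL i j (V r) (θ : E N) := fun i j =>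
      (hLV i j).comp (by fun_prop : Continuous fun r : ℝ => (r, θ))
    unfold Gs
    rw [ag_sum (F := fun i j r => LL i j (V r) (θ : E N) ^ 2) fun i j => (hc1 i j).pow 2,
      ag_sum (F := fun i j r => LL i j (W r) (θ : E N) ^ 2)]
    · have h1 : ∀ i j, ∫ r in (0 : ℝ)..1, r ^ (N - 3) * LL i j (W r) (θ : E N) ^ 2 =
          (∫ r in (0 : ℝ)..1, r ^ (N - 3) * LL i j (V r) (θ : E N) ^ 2) -
            NP N L * LL i j (TT L v) (θ : E N) ^ 2 := by
        intro i j
        have h := ag_proj (N := N) (L := L) hp hNP.ne' (hc1 i j)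
        rw [← hLTV] at h
        simp only [hLW]
        exact h
      simp only [h1, Finset.sum_sub_distrib]
      have h5 : ∑ i, ∑ j, NP N L * LL i j (TT L v) (θ : E N) ^ 2 =
          NP N L * ∑ i, ∑ j, LL i j (TT L v) (θ : E N) ^ 2 := by
        rw [Finset.mul_sum]
        refine Finset.sum_congr rfl fun i _ => ?_
        rw [Finset.mul_sum]
      rw [h5]
      ring
    · intro i j
      simp only [hLW]
      have := hc1 i j
      fun_prop
  have cGV : Continuous fun q : ℝ × Sp N => q.1 ^ (N - 3) * Gs (V q.1) (q.2 : E N) :=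
    (continuous_fst.pow _).mul hGV
  have cGW : Continuous fun q : ℝ × Sp N => q.1 ^ (N - 3) * Gs (W q.1) (q.2 : E N) :=
    (continuous_fst.pow _).mul hGW
  have BMi : ∀ {F : ℝ × Sp N → ℝ}, Continuous F → ∀ a b : ℝ,
      BM (fun θ => ∫ r in a..b, F (r, θ)) := fun {F} hF a b => BM_cont (by
    exact intervalIntegral.continuous_parametric_intervalIntegral_of_continuous'
      (f := fun (θ : Sp N) (r : ℝ) => F (r, θ))
      (hF.comp (continuous_snd.prodMk continuous_fst)) a b)
  have swap : ∀ {U : ℝ → E N → ℝ}, Continuous (fun q : ℝ × Sp N =>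
      q.1 ^ (N - 3) * Gs (U q.1) (q.2 : E N)) →
      av (fun θ : Sp N => ∫ r in (0 : ℝ)..1, r ^ (N - 3) * Gs (U r) (θ : E N)) =
        ∫ r in (0 : ℝ)..1, r ^ (N - 3) * av (fun θ : Sp N => Gs (U r) (θ : E N)) := by
    intro U hU
    refine (Pool.Agent.H10.LQ.fub hU zero_le_one).trans ?_
    refine intervalIntegral.integral_congr fun r _ => ?_
    exact av_const_mul (r ^ (N - 3)) fun θ : Sp N => Gs (U r) (θ : E N)
  have hE1 : ∫ r in (0 : ℝ)..1, r ^ (N - 3) * av (fun θ : Sp N => Gs (W r) (θ : E N)) =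
      (∫ r in (0 : ℝ)..1, r ^ (N - 3) * av (fun θ : Sp N => Gs (V r) (θ : E N))) -
        NP N L * av (fun θ : Sp N => Gs (TT L v) (θ : E N)) := by
    rw [← swap cGW, ← swap cGV, ← av_const_mul,
      ← av_sub (BMi cGV 0 1) (hGT.const_mul (NP N L))]
    congr 1
    funext θ
    exact hray θ
  -- the logarithmic Sobolev inequality
  have hI1 := ag_int hCO hLSD h3 hΦ hWs hWc hGW le_rfl zero_le_one
  have hI2 := ag_int hCO hLSD h3 hΦ hVs hVc hGV zero_le_one hB
  -- the masses
  have cV2 : Continuous fun q : ℝ × Sp N => q.1 ^ (N - 3) * V q.1 (q.2 : E N) ^ 2 :=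
    (continuous_fst.pow _).mul (hVc.pow 2)
  have cW2 : Continuous fun q : ℝ × Sp N => q.1 ^ (N - 3) * W q.1 (q.2 : E N) ^ 2 :=
    (continuous_fst.pow _).mul (hWc.pow 2)
  have hWT : ∀ θ : Sp N, WT L v θ =
      (∫ r in (0 : ℝ)..1, r ^ (N - 3) * W r (θ : E N) ^ 2) +
        ∫ r in (1 : ℝ)..bb N, r ^ (N - 3) * V r (θ : E N) ^ 2 := by
    intro θ
    have hc1 : Continuous fun r : ℝ => V r (θ : E N) :=
      hVc.comp (by fun_prop : Continuous fun r : ℝ => (r, θ))
    have h := ag_proj (N := N) (L := L) hp hNP.ne' hc1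
    have hi : ∀ a b : ℝ, IntervalIntegrable (fun r : ℝ => r ^ (N - 3) * V r (θ : E N) ^ 2)
        volume a b := fun a b => Continuous.intervalIntegrable (by fun_prop) a b
    have h4 := intervalIntegral.integral_add_adjacent_intervals (hi 0 1) (hi 1 (bb N))
    have h5 : WT L v θ = (∫ r in (0 : ℝ)..bb N, r ^ (N - 3) * V r (θ : E N) ^ 2) -
        NP N L * Tr N L (fun r => V r (θ : E N)) ^ 2 := by
      rw [hV]
      rfl
    have h6 : ∫ r in (0 : ℝ)..1, r ^ (N - 3) * W r (θ : E N) ^ 2 =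
        ∫ r in (0 : ℝ)..1, r ^ (N - 3) *
          (V r (θ : E N) - ph N L 1 r * Tr N L (fun r => V r (θ : E N))) ^ 2 := by
      rw [hV, hW]
      rfl
    rw [h5, h6, h, ← h4]
    ring
  have bV := BMi cV2 1 (bb N)
  have bW := BMi cW2 0 1
  have hm : av (WT L v) = av (fun θ : Sp N => ∫ r in (0 : ℝ)..1, r ^ (N - 3) * W r (θ : E N) ^ 2) +
      av (fun θ : Sp N => ∫ r in (1 : ℝ)..bb N, r ^ (N - 3) * V r (θ : E N) ^ 2) := by
    rw [← av_add bW bV]
    congr 1
    funext θ
    exact hWT θ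
  have hmΦ : av (fun θ => Φ θ * WT L v θ) =
      av (fun θ : Sp N => Φ θ * ∫ r in (0 : ℝ)..1, r ^ (N - 3) * W r (θ : E N) ^ 2) +
      av (fun θ : Sp N => Φ θ * ∫ r in (1 : ℝ)..bb N, r ^ (N - 3) * V r (θ : E N) ^ 2) := by
    rw [← av_add (hΦ.mul bW) (hΦ.mul bV)]
    congr 1
    funext θ
    rw [hWT θ]
    ring
  -- conclusion
  have hcav : Continuous fun r : ℝ => r ^ (N - 3) * av (fun θ : Sp N => Gs (V r) (θ : E N)) :=
    (continuous_pow _).mul ((hCO N h2).1 _ hGV)
  have hsplit := intervalIntegral.integral_add_adjacent_intervals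
    (hcav.intervalIntegrable (μ := volume) 0 1) (hcav.intervalIntegrable (μ := volume) 1 (bb N))
  have hgoal : ∫ r in (0 : ℝ)..bb N,
      r ^ (N - 3) * av (fun θ : Sp N => Gs (fun y => v (r • y)) (θ : E N)) =
      ∫ r in (0 : ℝ)..bb N, r ^ (N - 3) * av (fun θ : Sp N => Gs (V r) (θ : E N)) := by
    rw [hV]
  rw [hgoal, ← hsplit, hm, hmΦ]
  rw [hE1] at hI1
  linarith

end Pool.Agent.H85.LNN
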