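import Pool.Agent.H85.LNN.C1E
import Pool.Agent.H69.LNN.Targets
import Pool.Agent.H68.LQ1.QN

/-! MP_8f7db2_an, all dimensions: the target C1 of board lnn_modules -/

set_option autoImplicit false

open MeasureTheory Metric Set

namespace Pool.Agent.H85.LNN

open Pool.Agent.H69.LQ (T_UB T_FZ T_PH T_PV)

theorem pf_C1 (hUB : T_UB) (hFZ : T_FZ) (hPH : T_PH) (hPV : T_PV) : Pool.Agent.H69.LNN.T_C1 := by
  intro ε hε
  obtain ⟨N₀, h3, h⟩ := c1e hUB hFZ
    (fun N L hN hF => Pool.Agent.H68.LQ1.qn_upper hPH hPV N L hN hF) ε hε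
  exact ⟨N₀, h3, fun N Ω hN hΩ hvol hle => (h N hN Ω hΩ hvol hle).2⟩

end Pool.Agent.H85.LNN
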