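import Pool.Agent.H69.LNN.Targets
import Pool.Agent.H3.LK.SCL
import Pool.Agent.H19.LK.NE

/-! MP_8f7db2_an, all dimensions: row LNN of board lnn_modules (assembly) -/

set_option autoImplicit false

open MeasureTheory Metric Set
open scoped ENNReal

namespace Pool.Agent.H85.LNN

open Pool.Agent.H85.LK (E adm lam)
open Pool.Agent.H69.LQ (Fz T_FZ T_UB)
open Pool.Agent.H69.LNN

theorem pf_LNN (hFZ : T_FZ) (hUB : T_UB) (hCL : T_CL) (hLM : T_LM) : T_LNN := by
  obtain ⟨κ, N1, hκ, hN1, hlm⟩ := hLM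
  obtain ⟨N2, hN2, hcl⟩ := hCL κ hκ
  refine ⟨max N1 N2, fun N r Ω hN hr hΩ hvol => ?_⟩
  have hNN1 : N1 ≤ N := (le_max_left _ _).trans hN
  have hNN2 : N2 ≤ N := (le_max_right _ _).trans hN
  obtain ⟨Ω1, hΩ1⟩ : ∃ Ω1 : Set (E N), Ω1 = (fun x : E N => r • x) ⁻¹' Ω := ⟨_, rfl⟩
  have hΩ1o : IsOpen Ω1 := by
    rw [hΩ1]
    exact hΩ.preimage (continuous_const_smul r)
  have hpre1 : (fun x : E N => r • x) ⁻¹' ball (0 : E N) r = ball (0 : E N) 1 := by
    ext x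
    simp only [mem_preimage, mem_ball_zero_iff, norm_smul, Real.norm_eq_abs, abs_of_pos hr]
    constructor
    · intro h
      by_contra hx
      push Not at hx
      nlinarith
    · intro h
      nlinarith
  have hΩ1v : volume Ω1 = volume (ball (0 : E N) 1) := by
    rw [← hpre1, hΩ1, Measure.addHaar_preimage_smul _ hr.ne',
      Measure.addHaar_preimage_smul _ hr.ne', hvol]
  have hne : Ω1.Nonempty := by
    rw [nonempty_iff_ne_empty]
    intro h
    rw [h, measure_empty] at hΩ1v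
    exact (measure_ball_pos volume (0 : E N) one_pos).ne hΩ1v
  have hscl := (Pool.Agent.H3.LK.pf_SCL N (N + 1) r⁻¹ (inv_pos.mpr hr)).2.1 Ω
  rw [inv_inv, ← hΩ1] at hscl
  have hscb := (Pool.Agent.H3.LK.pf_SCL N (N + 1) r hr).2.2
  have hmain : lam N (N + 1) (ball (0 : E N) 1) ≤ lam N (N + 1) Ω1 := by
    by_contra hcon
    push Not at hcon
    obtain ⟨o, ho⟩ := hcl N Ω1 hNN2 hΩ1o hΩ1v hcon.le
    obtain ⟨L, hL⟩ := hFZ N (by omega)
    have h1 : L ≤ lam N (N + 1) Ω1 :=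
      le_csInf (Pool.Agent.H19.LK.pf_NE N (N + 1) Ω1 (by omega) hΩ1o hne) fun γ hγ =>
        hlm N L γ Ω1 o hNN1 hL hΩ1o hΩ1v ho hγ
    have h2 := hUB N L (by omega) hL
    linarith
  rw [hscb, div_le_iff₀ (by positivity)]
  have h3 : lam N (N + 1) Ω1 = lam N (N + 1) Ω * r ^ 2 := by
    rw [hscl, inv_pow, div_inv_eq_mul]
  rw [← h3]
  exact hmain

end Pool.Agent.H85.LNN
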