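import Pool.Agent.H69.LNN.Targets
import Pool.Agent.H94.LQ.TR
import Pool.Agent.H19.LK.NE

/-! MP_8f7db2_an, all dimensions: rows LS and CL of board lnn_modules -/

set_option autoImplicit false

open MeasureTheory Metric Set
open scoped ENNReal

namespace Pool.Agent.H85.LNN

open Pool.Agent.H85.LK (E adm lam)
open Pool.Agent.H69.LQ (Fz T_FZ T_TR)
open Pool.Agent.H69.LNN

theorem vB_pos (N : ℕ) : 0 < vB N := by
  unfold vB Measure.real
  exact ENNReal.toReal_pos (measure_ball_pos _ _ one_pos).ne' measure_ball_lt_top.ne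

/-- local stability for sets which are not centred -/
theorem pf_LS (hLS0 : T_LS0) (hCN : T_CN) (hCAP : T_CAP) (hBL : T_BL) (hFZ : T_FZ)
    (hTR : T_TR) : T_LS := by
  obtain ⟨d1, hd1, h0⟩ := hLS0
  obtain ⟨κ, N1, hκ, hN1, hcn⟩ := hCN d1 hd1
  refine ⟨min (min κ (1 / 2)) d1, by positivity, fun δ hδ hδ1 => ?_⟩
  obtain ⟨c, z, N2, hc, hz, hN2, h1⟩ := h0 δ hδ (hδ1.trans (min_le_right _ _))
  obtain ⟨N3, hN3⟩ := exists_nat_ge (2 / c)
  refine ⟨c / 2, z, max (max N1 N2) N3, by positivity, hz,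
    hN1.trans ((le_max_left _ _).trans (le_max_left _ _)), ?_⟩
  intro N Ω hN hΩ hfin hvol hex hall
  have hNN1 : N1 ≤ N := ((le_max_left _ _).trans (le_max_left _ _)).trans hN
  have hNN2 : N2 ≤ N := ((le_max_right _ _).trans (le_max_left _ _)).trans hN
  have hNN3 : (2 / c : ℝ) ≤ N := hN3.trans (by exact_mod_cast (le_max_right _ _).trans hN)
  have hN3' : 3 ≤ N := hN1.trans hNN1
  have hvb := vB_pos N
  obtain ⟨cc, hcc⟩ := hex
  have hcc1 : volume.real (symmDiff Ω (ball cc 1)) ≤ κ * vB N :=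
    hcc.trans (mul_le_mul_of_nonneg_right ((min_le_left _ _).trans (min_le_left _ _)) hvb.le)
  have hcc2 : volume.real (symmDiff Ω (ball cc 1)) ≤ 1 / 2 * vB N :=
    hcc.trans (mul_le_mul_of_nonneg_right ((min_le_left _ _).trans (min_le_right _ _)) hvb.le)
  obtain ⟨o, ho1, ho2⟩ := hcn N Ω cc hNN1 hΩ hfin hcc1
  obtain ⟨L, hL⟩ := hFZ N (by omega)
  -- nonempty
  have hne : Ω.Nonempty := by
    rw [nonempty_iff_ne_empty]
    rintro rfl
    have h2 : symmDiff (∅ : Set (E N)) (ball cc 1) = ball cc 1 := by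
      rw [← bot_eq_empty, bot_symmDiff]
    have h3 : volume.real (ball cc 1) = vB N := by
      unfold vB Measure.real
      rw [Measure.addHaar_ball_center]
    rw [h2, h3] at hcc2
    linarith
  -- the centred set
  obtain ⟨Ω1, hΩ1⟩ : ∃ Ω1 : Set (E N), Ω1 = (fun x : E N => o + x) ⁻¹' Ω := ⟨_, rfl⟩
  have hΩ1o : IsOpen Ω1 := by
    rw [hΩ1]
    exact hΩ.preimage (continuous_const.add continuous_id)
  have hΩ1v : volume Ω1 = volume Ω := by
    rw [hΩ1, measure_preimage_add]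
  obtain ⟨Ω2, hΩ2⟩ : ∃ Ω2 : Set (E N), Ω2 = Ω1 \ {0} := ⟨_, rfl⟩
  have hΩ2o : IsOpen Ω2 := by
    rw [hΩ2]
    exact hΩ1o.sdiff isClosed_singleton
  have : Nonempty (Fin N) := ⟨⟨0, by omega⟩⟩
  have hae : Ω2 =ᵐ[volume] Ω1 := by
    rw [hΩ2]
    exact sdiff_null_ae_eq_self (measure_singleton _)
  have hΩ2v : volume Ω2 = volume Ω := by rw [measure_congr hae, hΩ1v]
  have hsym : volume.real (symmDiff Ω2 (ball (0 : E N) 1)) =
      volume.real (symmDiff Ω (ball o 1)) := by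
    have h2 : volume (symmDiff Ω2 (ball (0 : E N) 1)) = volume (symmDiff Ω1 (ball (0 : E N) 1)) :=
      measure_congr (ae_eq_set_symmDiff hae (ae_eq_refl _))
    have h3 : symmDiff Ω1 (ball (0 : E N) 1) =
        (fun x : E N => o + x) ⁻¹' (symmDiff Ω (ball o 1)) := by
      have h4 : ball (0 : E N) 1 = (fun x : E N => o + x) ⁻¹' ball o 1 := by
        ext x
        rw [mem_preimage, mem_ball, mem_ball, dist_eq_norm, dist_eq_norm, add_sub_cancel_left,
          sub_zero]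
      rw [h4, hΩ1]
      rfl
    unfold Measure.real
    rw [h2, h3, measure_preimage_add]
  have hmom : ∀ i, ∫ x in Ω2, x i * Real.exp (-(N / 4) * ‖x‖ ^ 2) = 0 := by
    intro i
    rw [setIntegral_congr_set hae, ← ho2 i, hΩ1]
    have h2 := (measurePreserving_add_left (volume : Measure (E N)) o).setIntegral_preimage_emb
      (measurableEmbedding_addLeft o)
      (fun y => (y i - o i) * Real.exp (-(N / 4) * ‖y - o‖ ^ 2)) Ω
    rw [← h2]
    refine setIntegral_congr_fun (hΩ.preimage (continuous_const.add continuous_id)).measurableSet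
      fun x _ => ?_
    simp
  have h0' : (0 : E N) ∉ Ω2 := by
    rw [hΩ2]
    exact fun h => h.2 rfl
  have hreal : volume.real Ω2 = volume.real Ω := by
    unfold Measure.real
    rw [hΩ2v]
  -- the bound
  obtain ⟨-, hb2⟩ := hBL N L hN3' hL
  have hkey : ∀ γ ∈ adm N 1 Ω, L - N + c * N ≤ γ := by
    intro γ hγ
    have hγ1 : γ ∈ adm N 1 Ω1 := by
      rw [hΩ1, hTR N 1 o Ω]
      exact hγ
    apply le_of_forall_pos_le_add
    intro ε hε
    have hγ2 : γ + ε ∈ adm N 1 Ω2 := by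
      rw [hΩ2]
      exact hCAP N 1 Ω1 0 γ ε hN3' le_rfl hΩ1o hγ1 hε
    refine h1 N L (γ + ε) Ω2 hNN2 hL hΩ2o (by rw [hΩ2v]; exact hfin) (by rw [hreal]; exact hvol)
      (by rw [hsym]; exact ho1) (by rw [hsym]; exact hall o) hmom h0' hγ2
  apply le_csInf (Pool.Agent.H19.LK.pf_NE N 1 Ω (by omega) hΩ hne)
  intro γ hγ
  have h2 := hkey γ hγ
  have h3 : 1 ≤ c / 2 * N := by
    rw [div_le_iff₀ hc] at hNN3
    linarith
  linarith

/-- closeness to a ball -/
theorem pf_CL (hC1 : T_C1) (hC2 : T_C2) (hLS : T_LS) : T_CL := by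
  obtain ⟨d0, hd0, hls⟩ := hLS
  intro δ hδ
  obtain ⟨d, hd⟩ : ∃ d, d = min δ (d0 / 2) := ⟨_, rfl⟩
  have hdpos : 0 < d := by rw [hd]; positivity
  have hdd0 : d ≤ d0 / 2 := hd ▸ min_le_right _ _
  obtain ⟨c, z, N1, hc, hz, hN1, h1⟩ := hls (d / 2) (by positivity) (by linarith)
  obtain ⟨N2, hN2, h2⟩ := hC1 (c / 2) (by positivity)
  refine ⟨max N1 N2, hN1.trans (le_max_left _ _), fun N Ω hN hΩ hvol hle => ?_⟩
  have hNN1 : N1 ≤ N := (le_max_left _ _).trans hN
  have hNN2 : N2 ≤ N := (le_max_right _ _).trans hN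
  have hvb := vB_pos N
  have hN3 : (3 : ℝ) ≤ N := by exact_mod_cast hN1.trans hNN1
  by_contra hcon
  push Not at hcon
  have hfar : ∀ o : E N, d * vB N < volume.real (symmDiff Ω (ball o 1)) := fun o =>
    lt_of_le_of_lt (mul_le_mul_of_nonneg_right (hd ▸ min_le_left _ _) hvb.le) (hcon o)
  obtain ⟨w, hw⟩ : ∃ w, w = min (min z (d / 2)) (c / 4) := ⟨_, rfl⟩
  have hw0 : 0 < w := by rw [hw]; positivity
  have hwz : w ≤ z := hw ▸ (min_le_left _ _).trans (min_le_left _ _)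
  have hwd : w ≤ d / 2 := hw ▸ (min_le_left _ _).trans (min_le_right _ _)
  have hwc : w ≤ c / 4 := hw ▸ min_le_right _ _
  obtain ⟨Ω', ho, hb, hv, hlo, ⟨o, hup⟩, hlam⟩ := hC2 N d w Ω (by omega) hdpos hw0 hΩ hvol hfar
  have h3 := h1 N Ω' hNN1 ho (hb.measure_lt_top).ne
    (hv.trans (mul_le_mul_of_nonneg_right (by linarith) hvb.le))
    ⟨o, hup.trans (mul_le_mul_of_nonneg_right (by linarith) hvb.le)⟩
    (fun o => (mul_le_mul_of_nonneg_right (by linarith) hvb.le).trans (hlo o))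
  have h4 := h2 N Ω hNN2 hΩ hvol hle
  nlinarith

end Pool.Agent.H85.LNN
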