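import Pool.Agent.H69.LNN.Lib

/-! MP_8f7db2_an, all dimensions: row MI1 of board lnn_modules -/

set_option autoImplicit false

open MeasureTheory Metric Set
open scoped ENNReal
open Pool.Agent.H85.LK (E adm lam Ann)
open Pool.Agent.H69.LQ Pool.Agent.H69.LNN

namespace Pool.Agent.H85.LNN

/-! ### Pointwise inequalities -/

/-- negative exponents close to zero -/
theorem mi_a (h Eh d e : ℝ) (h1 : -(3 / 2) ≤ h) (h2 : h ≤ 0) (hE : h + 1 ≤ Eh)
    (hd : 1 - Eh - e ≤ d) (he : 0 ≤ e) :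
    15 / 100 * d + 1 / 100 * min (h ^ 2) 1 - e ≤
      Eh - 1 - h - 54 / 100 * h ^ 2 - 1 / 500 * h ^ 2 + d + 15 / 100 * e := by
  have h3 : min (h ^ 2) 1 ≤ -h := by
    rcases le_total (-h) 1 with h4 | h4
    · exact (min_le_left _ _).trans (by nlinarith)
    · exact (min_le_right _ _).trans h4
  have h5 : 0 ≤ -h * (h + 3 / 2) := mul_nonneg (by linarith) (by linarith)
  nlinarith

theorem mi_b (Eh d e m : ℝ) (hE : 0 ≤ Eh) (hd : 1 - Eh - e ≤ d) (he : 0 ≤ e) (hm : m ≤ 1) :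
    15 / 100 * d + 1 / 100 * m - e ≤
      Eh - 1 - (-(4 / 3)) - 54 / 100 * (-1) ^ 2 - 1 / 500 * (-(3 / 2)) ^ 2 + d := by
  nlinarith

theorem mi_c (h Eh d e K : ℝ) (h1 : 0 ≤ h) (hE : 1 + h + h ^ 2 / 2 ≤ Eh) (hEe : Eh - 1 ≤ e)
    (hd : 0 ≤ d) (hK : 1 ≤ K) (hhK : h ≤ K + 1) :
    15 / 100 * d + 1 / 100 * min (h ^ 2) 1 - (K + 1) * e ≤
      Eh - 1 - h - 54 / 100 * h ^ 2 - 1 / 500 * h ^ 2 + d := by
  have h2 : min (h ^ 2) 1 ≤ h ^ 2 := min_le_left _ _
  have h3 : h ^ 2 ≤ (K + 1) * e := by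
    calc h ^ 2 = h * h := sq h
      _ ≤ (K + 1) * h := mul_le_mul_of_nonneg_right hhK h1
      _ ≤ (K + 1) * e := mul_le_mul_of_nonneg_left (by nlinarith [sq_nonneg h]) (by linarith)
  nlinarith

/-- the pointwise inequality on the rays of small volume -/
theorem mi_pt (h Eh ρ d H K : ℝ) (hEh : Eh = Real.exp h) (hrel : Eh + d = ρ + H) (hd : 0 ≤ d)
    (hH : 0 ≤ H) (hH1 : H ≤ 1) (hK : 1 ≤ K) (hρK : ρ ≤ Real.exp K) :
    15 / 100 * d + 1 / 100 * min (h ^ 2) 1 - (K + 1) * (|ρ - 1| + H) ≤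
      (Eh - 1 - psi h) - 54 / 100 * phi h ^ 2 - 1 / 500 * ht h ^ 2 + d := by
  obtain ⟨e, he⟩ : ∃ e, e = |ρ - 1| + H := ⟨_, rfl⟩
  have he0 : 0 ≤ e := by rw [he]; positivity
  have hE0 : 0 < Eh := hEh ▸ Real.exp_pos _
  have hE1 : h + 1 ≤ Eh := hEh ▸ Real.add_one_le_exp h
  have habs := abs_le.1 (le_refl |ρ - 1|)
  have hd1 : 1 - Eh - e ≤ d := by rw [he]; linarith [habs.1]
  have hKe : e ≤ (K + 1) * e := by nlinarith
  rw [← he]
  rcases lt_or_ge h (-(3 / 2)) with h1 | h1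
  · rw [psi_of_lt h1, phi_of_lt h1, ht_of_lt h1]
    have := mi_b Eh d e (min (h ^ 2) 1) hE0.le hd1 he0 (min_le_right _ _)
    linarith
  · rw [psi_of_le h1, phi_of_le h1, ht_of_le h1]
    rcases le_total h 0 with h2 | h2
    · have := mi_a h Eh d e h1 h2 hE1 hd1 he0
      nlinarith
    · have hq : 1 + h + h ^ 2 / 2 ≤ Eh := by
        rw [hEh]
        have := Real.quadratic_le_exp_of_nonneg h2
        linarith
      have hle : Eh - 1 ≤ e := by rw [he]; linarith [habs.2]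
      have hhK : h ≤ K + 1 := by
        have h3 : Eh ≤ Real.exp K + 1 := by linarith
        have h4 : Real.exp K + 1 ≤ Real.exp (K + 1) := by
          rw [Real.exp_add]
          have h5 : 1 + 1 ≤ Real.exp 1 := by
            have := Real.add_one_le_exp (1 : ℝ)
            linarith
          have h6 : 1 ≤ Real.exp K := Real.one_le_exp (by linarith)
          nlinarith
        rw [hEh] at h3
        exact Real.exp_le_exp.1 (h3.trans h4)
      exact mi_c h Eh d e K h2 hq hle hd hK hhK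

/-- the rays of large volume -/
theorem mi_big (C₀ t : ℝ) (hC : 1 ≤ C₀) (ht : C₀ + 4836 ≤ t) :
    1 / 2 * Real.exp t ≤ Real.exp t - 1 - ((t + C₀) + 100 * (t + C₀) ^ 2) := by
  have ht0 : 0 ≤ t := by linarith
  have h1 : t ^ 3 / 6 ≤ Real.exp t := by
    have h := Real.pow_div_factorial_le_exp t ht0 3
    have : ((Nat.factorial 3 : ℕ) : ℝ) = 6 := by norm_num [Nat.factorial]
    rwa [this] at h
  have h2 : (t + C₀) ≤ 2 * t := by linarith
  have h3 : (t + C₀) ^ 2 ≤ 4 * t ^ 2 := by nlinarith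
  have h4 : 403 * t ^ 2 ≤ t ^ 3 / 12 := by
    have : t ^ 3 / 12 = t ^ 2 * (t / 12) := by ring
    rw [this, mul_comm]
    exact mul_le_mul_of_nonneg_left (by linarith) (sq_nonneg t)
  have h5 : 1 + 2 * t ≤ 3 * t ^ 2 := by nlinarith
  nlinarith

/-! ### Means -/

theorem av_ind_lin {N : ℕ} {F G : Sp N → ℝ} (hF : BM F) (hG : BM G) {s : Set (Sp N)}
    (hs : MeasurableSet s) (a b : ℝ) :
    av (s.indicator fun θ => a * F θ + b * G θ) =
      a * av (s.indicator F) + b * av (s.indicator G) := by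
  rw [← av_const_mul, ← av_const_mul, ← av_add ((BM_ind hF hs).const_mul a)
    ((BM_ind hG hs).const_mul b)]
  congr 1
  funext θ
  by_cases h : θ ∈ s
  · rw [indicator_of_mem h, indicator_of_mem h, indicator_of_mem h]
  · rw [indicator_of_notMem h, indicator_of_notMem h, indicator_of_notMem h]
    ring

theorem pf_MI1 (hL4 : T_L4) (hVI : T_VI) : T_MI1 := by
  intro C₀ hC₀
  refine ⟨C₀ + 4836, by linarith, fun K z hK hz => ?_⟩
  have hK1 : 1 ≤ K := by linarith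
  refine ⟨7 / 100 * z / (K + 1), 3, by positivity, le_rfl, ?_⟩
  intro N κ' far k₀ ρ R d H Hb k kf hN hM hz2
  obtain ⟨G, hG⟩ : ∃ G, G = Gk K ρ := ⟨_, rfl⟩
  have hGm : MeasurableSet G := hG ▸ meas_Gk hM.bρ
  have hRpos : ∀ θ, 0 < R θ := fun θ => by
    obtain ⟨δ, hδ, hl⟩ := hM.Rlb
    exact lt_of_lt_of_le hδ (hl θ)
  have bh : BM (hR R) := BM_hR hM.bR hM.Rlb
  -- the part of degree one
  have bphi : BM (G.indicator fun θ => phi (hR R θ)) := BM_ind (BM_phi bh) hGm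
  have hn1 := (hL4 N _ (by omega) bphi).2.1
  have hsq : (fun θ => (G.indicator (fun θ => phi (hR R θ)) θ) ^ 2) =
      G.indicator fun θ => phi (hR R θ) ^ 2 := by
    funext θ
    by_cases h : θ ∈ G
    · rw [indicator_of_mem h, indicator_of_mem h]
    · rw [indicator_of_notMem h, indicator_of_notMem h]; ring
  rw [hsq] at hn1
  -- the volume identity
  have hvi := hVI N K ρ R d H (by omega) hM.bρ hM.bR hM.bd hM.bH hM.Rlb hM.rel
  rw [← hG] at hvi hz2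
  -- functions
  obtain ⟨P1, hP1⟩ : ∃ P1 : Sp N → ℝ, P1 = fun θ => R θ ^ N - 1 - psi (hR R θ) := ⟨_, rfl⟩
  obtain ⟨P2, hP2⟩ : ∃ P2 : Sp N → ℝ, P2 = fun θ => phi (hR R θ) ^ 2 := ⟨_, rfl⟩
  obtain ⟨P3, hP3⟩ : ∃ P3 : Sp N → ℝ, P3 = fun θ => ht (hR R θ) ^ 2 := ⟨_, rfl⟩
  obtain ⟨P4, hP4⟩ : ∃ P4 : Sp N → ℝ, P4 = fun θ => min (hR R θ ^ 2) 1 := ⟨_, rfl⟩
  obtain ⟨P5, hP5⟩ : ∃ P5 : Sp N → ℝ, P5 = fun θ => |ρ θ - 1| + H θ := ⟨_, rfl⟩
  have b1 : BM P1 := by
    rw [hP1]; exact ((hM.bR.pow N).sub (BM_const 1)).sub (BM_psi bh)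
  have b2 : BM P2 := by rw [hP2]; exact (BM_phi bh).pow 2
  have b3 : BM P3 := by rw [hP3]; exact (BM_ht bh).pow 2
  have b4 : BM P4 := by rw [hP4]; exact BM_min (bh.pow 2) (BM_const 1)
  have b5a : BM (fun θ => |ρ θ - 1|) := (hM.bρ.sub (BM_const 1)).abs
  have b5 : BM P5 := by rw [hP5]; exact b5a.add hM.bH
  -- the pointwise inequality on `G`
  have hpt : ∀ θ ∈ G, (15 / 100) * d θ + 1 * ((1 / 100) * P4 θ + (-(K + 1)) * P5 θ) ≤
      1 * (1 * P1 θ + (-(54 / 100)) * P2 θ) + 1 * ((-(1 / 500)) * P3 θ + 1 * d θ) := by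
    intro θ hθ
    rw [hG] at hθ
    have h := mi_pt (hR R θ) (R θ ^ N) (ρ θ) (d θ) (H θ) K (exp_hR (hRpos θ)).symm (hM.rel θ)
      (hM.d0 θ).1 (hM.H0 θ).1 (hM.H1 θ) hK1 (mem_Gk.1 hθ)
    rw [hP1, hP2, hP3, hP4, hP5]
    show (15 / 100) * d θ + 1 * ((1 / 100) * min (hR R θ ^ 2) 1 + (-(K + 1)) * (|ρ θ - 1| + H θ)) ≤
      1 * (1 * (R θ ^ N - 1 - psi (hR R θ)) + (-(54 / 100)) * phi (hR R θ) ^ 2) +
        1 * ((-(1 / 500)) * ht (hR R θ) ^ 2 + 1 * d θ)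
    linarith
  have bl1 : BM (fun θ => (1 / 100) * P4 θ + (-(K + 1)) * P5 θ) :=
    (b4.const_mul _).add (b5.const_mul _)
  have bl2 : BM (fun θ => (15 / 100) * d θ + 1 * ((1 / 100) * P4 θ + (-(K + 1)) * P5 θ)) :=
    (hM.bd.const_mul _).add (bl1.const_mul _)
  have br1 : BM (fun θ => 1 * P1 θ + (-(54 / 100)) * P2 θ) := (b1.const_mul _).add (b2.const_mul _)
  have br2 : BM (fun θ => (-(1 / 500)) * P3 θ + 1 * d θ) :=
    (b3.const_mul _).add (hM.bd.const_mul _)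
  have br3 : BM (fun θ => 1 * (1 * P1 θ + (-(54 / 100)) * P2 θ) +
      1 * ((-(1 / 500)) * P3 θ + 1 * d θ)) := (br1.const_mul _).add (br2.const_mul _)
  have hA := av_ind_mono bl2 br3 hGm hpt
  rw [av_ind_lin hM.bd bl1 hGm, av_ind_lin b4 b5 hGm, av_ind_lin br1 br2 hGm,
    av_ind_lin b1 b2 hGm, av_ind_lin b3 hM.bd hGm] at hA
  -- the errors
  have hP5le : av (G.indicator P5) ≤ 2 * (7 / 100 * z / (K + 1)) := by
    have h1 : av (G.indicator P5) ≤ av P5 := av_ind_le b5 b5 hGm (fun θ _ => le_rfl) (fun θ => by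
      rw [hP5]
      exact add_nonneg (abs_nonneg _) (hM.H0 θ).1)
    have h2 : av P5 = av (fun θ => |ρ θ - 1|) + av H := by
      rw [hP5]
      exact av_add b5a hM.bH
    have h3 := hM.cl
    have h4 := hM.clH
    linarith
  have hHb : av (G.indicator H) ≤ av (G.indicator Hb) :=
    av_ind_mono hM.bH hM.bHb hGm fun θ _ => (hM.H0 θ).2
  have hHb0 : 0 ≤ av (G.indicator Hb) := av_ind_nonneg fun θ _ => (hM.H0 θ).1.trans (hM.H0 θ).2
  -- the complement
  obtain ⟨Lg, hLg⟩ : ∃ Lg : Sp N → ℝ, Lg = fun θ => Real.log (max (ρ θ) 1) + C₀ := ⟨_, rfl⟩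
  have bLg : BM Lg := by
    rw [hLg]
    refine BM.add ?_ (BM_const C₀)
    refine BM_comp_le hM.bρ (g := fun t => Real.log (max t 1))
      (Real.measurable_log.comp (measurable_id.max measurable_const)) fun M => ⟨M + 1, ?_⟩
    intro t ht
    have h1 : 1 ≤ max t 1 := le_max_right _ _
    rw [abs_of_nonneg (Real.log_nonneg h1)]
    have h2 := Real.log_le_sub_one_of_pos (by linarith : 0 < max t 1)
    have h3 : max t 1 ≤ M + 1 := max_le (by linarith [le_abs_self t]) (by linarith [abs_nonneg t])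
    linarith
  have hcompl : (Gᶜ.indicator fun θ => (Real.log (ρ θ) + C₀) + 100 * (Real.log (ρ θ) + C₀) ^ 2) =
      Gᶜ.indicator fun θ => 1 * Lg θ + 100 * (Lg θ ^ 2) := by
    funext θ
    by_cases h : θ ∈ Gᶜ
    · rw [indicator_of_mem h, indicator_of_mem h, hLg]
      have h1 : Real.exp K < ρ θ := by
        rw [← not_mem_Gk, ← hG]
        exact h
      have h2 : 1 ≤ Real.exp K := Real.one_le_exp (by linarith)
      have h3 : max (ρ θ) 1 = ρ θ := max_eq_left (by linarith)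
      show _ = 1 * (Real.log (max (ρ θ) 1) + C₀) + 100 * (Real.log (max (ρ θ) 1) + C₀) ^ 2
      rw [h3, one_mul]
    · rw [indicator_of_notMem h, indicator_of_notMem h]
  have bLq : BM (fun θ => 1 * Lg θ + 100 * (Lg θ ^ 2)) :=
    (bLg.const_mul _).add ((bLg.pow 2).const_mul _)
  have hB : av (Gᶜ.indicator fun θ => (1 / 2) * ρ θ + 1 * (1 * Lg θ + 100 * (Lg θ ^ 2))) ≤
      av (Gᶜ.indicator fun θ => ρ θ - 1) := by
    refine av_ind_mono ((hM.bρ.const_mul _).add (bLq.const_mul _)) (hM.bρ.sub (BM_const 1))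
      hGm.compl fun θ hθ => ?_
    have h1 : Real.exp K < ρ θ := by
      rw [← not_mem_Gk, ← hG]
      exact hθ
    have h2 : 1 ≤ Real.exp K := Real.one_le_exp (by linarith)
    have h3 : max (ρ θ) 1 = ρ θ := max_eq_left (by linarith)
    have hρ0 : 0 < ρ θ := by linarith
    have h4 := mi_big C₀ (Real.log (ρ θ)) hC₀ (hK.trans (by
      rw [Real.le_log_iff_exp_le hρ0]
      exact h1.le))
    rw [Real.exp_log hρ0] at h4
    rw [hLg]
    show (1 / 2) * ρ θ + 1 * (1 * (Real.log (max (ρ θ) 1) + C₀) +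
      100 * (Real.log (max (ρ θ) 1) + C₀) ^ 2) ≤ ρ θ - 1
    rw [h3]
    linarith
  rw [av_ind_lin hM.bρ bLq hGm.compl] at hB
  -- conclusion
  have hvol := hM.vol
  have hfar := hM.far0
  have hd0 : 0 ≤ av (G.indicator d) := av_ind_nonneg fun θ _ => (hM.d0 θ).1
  have hρ0 : 0 ≤ av (Gᶜ.indicator ρ) := av_ind_nonneg fun θ _ => (hM.d0 θ).1.trans (hM.d0 θ).2
  have hKz : (K + 1) * (2 * (7 / 100 * z / (K + 1))) = 14 / 100 * z := by
    field_simp
    ring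
  have hP5b : (K + 1) * av (G.indicator P5) ≤ 14 / 100 * z := by
    rw [← hKz]
    exact mul_le_mul_of_nonneg_left hP5le (by linarith)
  unfold Dst MM
  rw [← hG, hcompl]
  rw [hP1, hP2, hP3, hP4] at hA
  linarith

end Pool.Agent.H85.LNN
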