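import Pool.Agent.H85.LNN.ASM2
import Pool.Agent.H77.LK.PWR

/-! MP_8f7db2_an, all dimensions: from the functionals `Phi` back to the first eigenvalue -/

set_option autoImplicit false

open MeasureTheory Metric Set Filter
open scoped ENNReal Topology

namespace Pool.Agent.H85.LNN

open Pool.Agent.H85.LK
open Pool.Agent.H77.LK (TA bd_TA bd_pow shift pow_le cs_int bd_ind it_facts)

/-- the smoothing on compact subsets, arbitrary compact sets -/
theorem cut_rp_gen {N : ℕ} (hN : 1 ≤ N) {K0 Ω : Set (E N)} (hK0c : IsCompact K0)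
    (hΩ : IsOpen Ω) (hKΩ : K0 ⊆ Ω) {K : ℝ} (hK0 : 0 < K) (hK : K < lam N 1 Ω) :
    ∃ s₀ : ℝ, 0 < s₀ ∧ ∀ s : ℝ, 0 < s → s ≤ s₀ → 0 ≤ 1 - s * K ∧
      ∀ f : E N → ℝ, Bd K0 f →
        ∫ x, sm N s f x ^ 2 ≤ (1 - s * K) ^ 2 * ∫ x, f x ^ 2 := by
  obtain ⟨ρ0, hρ0⟩ := hK0c.isBounded.subset_ball (0 : E N)
  obtain ⟨ρ, hρd⟩ : ∃ ρ : ℝ, ρ = max ρ0 1 := ⟨_, rfl⟩
  have hρ : 0 < ρ := hρd ▸ lt_of_lt_of_le one_pos (le_max_right _ _)
  have hKρ : K0 ⊆ ball (0 : E N) ρ := hρ0.trans (ball_subset_ball (hρd ▸ le_max_left _ _))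
  set Ω1 : Set (E N) := (fun x => (ρ⁻¹)⁻¹ • x) ⁻¹' Ω with hΩ1
  set K1 : Set (E N) := (fun x => ρ • x) ⁻¹' K0 with hK1
  have hK1e : K1 = (fun x : E N => ρ⁻¹ • x) '' K0 := by
    ext x
    constructor
    · intro hx
      exact ⟨ρ • x, hx, by simp [smul_smul, inv_mul_cancel₀ hρ.ne']⟩
    · rintro ⟨y, hy, rfl⟩
      show ρ • ρ⁻¹ • y ∈ K0
      rw [smul_smul, mul_inv_cancel₀ hρ.ne', one_smul]
      exact hy
  have hK1c : IsCompact K1 := by
    rw [hK1e]
    exact hK0c.image (continuous_const_smul _)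
  have hΩ1o : IsOpen Ω1 := hΩ.preimage (continuous_const_smul _)
  have hK1Ω : K1 ⊆ Ω1 := by
    intro x hx
    show (ρ⁻¹)⁻¹ • x ∈ Ω
    rw [inv_inv]
    exact hKΩ hx
  have hK1B : K1 ⊆ ball (0 : E N) 1 := by
    intro x hx
    have h1 : ρ • x ∈ ball (0 : E N) ρ := hKρ hx
    rw [mem_ball_zero_iff, norm_smul, Real.norm_eq_abs, abs_of_pos hρ] at h1
    rw [mem_ball_zero_iff]
    exact (mul_lt_iff_lt_one_right hρ).1 h1
  have hlam : lam N 1 Ω1 = lam N 1 Ω * ρ ^ 2 := by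
    rw [hΩ1, (scl_all N 1 ρ⁻¹ (by positivity)).2.1 Ω, inv_pow, div_inv_eq_mul]
  obtain ⟨s₁, hs₁, h⟩ := cut_rp hk_all int_all rps_all rpa_all la_all hN hK1c hΩ1o hK1Ω hK1B
    (K := K * ρ ^ 2) (by positivity) (by rw [hlam]; exact mul_lt_mul_of_pos_right hK (by positivity))
  refine ⟨s₁ * ρ ^ 2, by positivity, fun s hs hss => ?_⟩
  obtain ⟨h1, h2⟩ := h (s / ρ ^ 2) (by positivity) (by rw [div_le_iff₀ (by positivity)]; exact hss)
  have e0 : s / ρ ^ 2 * (K * ρ ^ 2) = s * K := by field_simp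
  rw [e0] at h1 h2
  refine ⟨h1, fun f hf => ?_⟩
  have hf1 : Bd K1 (fun x => f (ρ • x)) := by
    obtain ⟨g1, ⟨M, hM⟩, g3⟩ := hf
    exact ⟨g1.comp (measurable_const_smul ρ), ⟨M, fun x => hM _⟩, fun x hx => g3 _ hx⟩
  have h3 := h2 _ hf1
  rw [Pool.Agent.H3.LK.int_scale hρ fun x => sm N s f x ^ 2,
    Pool.Agent.H3.LK.int_scale hρ fun x => f x ^ 2]
  have e1 : ∀ x, sm N s f (ρ • x) = sm N (s / ρ ^ 2) (fun x => f (ρ • x)) x := fun x =>
    Pool.Agent.H3.LK.sm_scale hs hρ f x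
  simp only [e1]
  have h4 := mul_le_mul_of_nonneg_left h3 (show 0 ≤ ρ ^ N by positivity)
  linarith

/-- growth of `Phi` -/
theorem phi_bound (hHK : T_HK) (hINT : T_INT) {N : ℕ} {s τ : ℝ} (hs : 0 < s) (hτ : 0 ≤ τ)
    {B : Set (E N)} (hB : MeasurableSet B) (hb : Bornology.IsBounded B)
    (h : ∀ f : E N → ℝ, Bd B f → ∫ x in B, sm N s f x ^ 2 ≤ τ ^ 2 * ∫ x, f x ^ 2) (j : ℕ) :
    Phi N s B j ≤ τ ^ j * volume.real B := by
  have eB : ∫ x, B.indicator (fun _ => (1 : ℝ)) x = volume.real B := by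
    rw [integral_indicator_const _ hB]; simp
  have h2 : ∀ j, ∫ x, it N s B j x ^ 2 ≤ (τ ^ j) ^ 2 * volume.real B := by
    intro j
    induction j with
    | zero =>
      have : (fun x => it N s B 0 x ^ 2) = B.indicator (fun _ => (1 : ℝ)) := by
        ext x; by_cases hx : x ∈ B <;> simp [it, hx]
      rw [this, eB]; simp
    | succ j ih =>
      have e : ∫ x, it N s B (j + 1) x ^ 2 = ∫ x in B, sm N s (it N s B j) x ^ 2 := by
        rw [← integral_indicator hB]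
        congr 1; ext x
        by_cases hx : x ∈ B <;> simp [it, hx]
      rw [e]
      refine (h _ (it_facts hHK hINT hs hB hb j).1).trans ?_
      calc τ ^ 2 * ∫ x, it N s B j x ^ 2 ≤ τ ^ 2 * ((τ ^ j) ^ 2 * volume.real B) :=
            mul_le_mul_of_nonneg_left ih (sq_nonneg τ)
        _ = (τ ^ (j + 1)) ^ 2 * volume.real B := by ring
  have fj := it_facts hHK hINT hs hB hb j
  have i1 := hINT N s B _ _ hs hB hb (bd_ind hB) fj.1
  have i2 := hINT N s B _ _ hs hB hb fj.1 fj.1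
  have i3 := hINT N s B _ _ hs hB hb (bd_ind hB) (bd_ind hB)
  have c := cs_int i3.2.2.2.2.2.1 i1.2.2.2.2.1 i2.2.2.2.2.2.1
  have e1 : ∫ x, B.indicator (fun _ => (1 : ℝ)) x * it N s B j x = Phi N s B j := by
    unfold Phi
    congr 1; ext x
    by_cases hx : x ∈ B
    · simp [hx]
    · simp [hx, fj.1.2.2 x hx]
  have e2 : ∫ x, B.indicator (fun _ => (1 : ℝ)) x ^ 2 = volume.real B := by
    rw [← eB]
    congr 1; ext x
    by_cases hx : x ∈ B <;> simp [hx]
  rw [e1, e2] at c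
  have c2 : Phi N s B j ^ 2 ≤ (τ ^ j * volume.real B) ^ 2 := by
    refine c.trans ?_
    calc volume.real B * ∫ x, it N s B j x ^ 2
        ≤ volume.real B * ((τ ^ j) ^ 2 * volume.real B) :=
          mul_le_mul_of_nonneg_left (h2 j) measureReal_nonneg
      _ = (τ ^ j * volume.real B) ^ 2 := by ring
  exact le_of_sq_le_sq c2 (mul_nonneg (pow_nonneg hτ j) measureReal_nonneg)

/-- comparison of the forms, `T_PWR` with an arbitrary bounded set in place of the ball -/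
theorem pwr_gen (hHK : T_HK) (hINT : T_INT) {N : ℕ} {s τ : ℝ} {A B : Set (E N)} {v : E N → ℝ}
    (hs : 0 < s) (hτ : 0 ≤ τ) (hA : MeasurableSet A) (hb : Bornology.IsBounded A)
    (hB : MeasurableSet B) (hBb : Bornology.IsBounded B) (hv : Bd A v)
    (hPhi : ∀ m, Phi N s A m ≤ Phi N s B m)
    (hball : ∀ f : E N → ℝ, Bd B f → ∫ x in B, sm N s f x ^ 2 ≤ τ ^ 2 * ∫ x, f x ^ 2) :
    Qf N s v ≤ τ * ∫ x, v x ^ 2 := by
  obtain ⟨M', hM'⟩ := hv.2.1
  set M := max M' 0 with hMdef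
  have hM0 : 0 ≤ M := le_max_right _ _
  have hM : ∀ x, |v x| ≤ M := fun x => (hM' x).trans (le_max_left _ _)
  set a : ℕ → ℝ := fun j => ∫ x, v x * (TA N s A)^[j] v x with ha
  have bj := bd_pow hINT hs hA hb hv
  have a0 : ∫ x, v x ^ 2 = a 0 := by
    simp only [ha, Function.iterate_zero, id_eq]; congr 1; ext x; ring
  have a0nn : 0 ≤ a 0 := by rw [← a0]; exact integral_nonneg fun x => sq_nonneg _
  have eQ : Qf N s v = a 1 := by
    unfold Qf
    simp only [ha, Function.iterate_one]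
    congr 1; ext x
    show _ = v x * A.indicator (sm N s v) x
    by_cases h : x ∈ A
    · simp [h]
    · simp [h, hv.2.2 x h]
  have cs : ∀ m, a m ^ 2 ≤ a 0 * a (2 * m) := by
    intro m
    have i1 := hINT N s A v _ hs hA hb hv (bj m)
    have i2 := hINT N s A _ v hs hA hb (bj m) hv
    have c := cs_int i1.2.2.2.2.2.1 i1.2.2.2.2.1 i2.2.2.2.2.2.1
    have e : ∫ x, (TA N s A)^[m] v x ^ 2 = a (2 * m) := by
      have := shift hINT hs hA hb hv m m
      simp only [ha]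
      rw [two_mul, ← this]; congr 1; ext x; ring
    rw [a0, e] at c
    exact c
  rw [eQ, a0]
  by_cases h1 : a 1 ≤ 0
  · exact h1.trans (mul_nonneg hτ a0nn)
  push Not at h1
  have a0pos : 0 < a 0 := by
    rcases a0nn.lt_or_eq with h | h
    · exact h
    · have := cs 1
      rw [← h, zero_mul] at this
      nlinarith
  set r := a 1 / a 0 with hr
  have rpos : 0 < r := div_pos h1 a0pos
  have low : ∀ k : ℕ, a 0 * r ^ (2 ^ k) ≤ a (2 ^ k) := by
    intro k
    induction k with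
    | zero =>
      simp only [pow_zero, pow_one]
      rw [hr, mul_div_cancel₀ _ a0pos.ne']
    | succ k ih =>
      have h2 := cs (2 ^ k)
      have h3 : (a 0 * r ^ (2 ^ k)) ^ 2 ≤ a (2 ^ k) ^ 2 :=
        pow_le_pow_left₀ (mul_nonneg a0nn (pow_nonneg rpos.le _)) ih 2
      have h4 : a 0 * (a 0 * r ^ (2 ^ (k + 1))) ≤ a 0 * a (2 ^ (k + 1)) := by
        have e : a 0 * (a 0 * r ^ (2 ^ (k + 1))) = (a 0 * r ^ (2 ^ k)) ^ 2 := by
          rw [pow_succ 2 k, pow_mul]; ring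
        have e2 : 2 * 2 ^ k = 2 ^ (k + 1) := by ring
        rw [e, ← e2]
        exact h3.trans h2
      exact le_of_mul_le_mul_left h4 a0pos
  have up : ∀ j : ℕ, a j ≤ M ^ 2 * (τ ^ j * volume.real B) := by
    intro j
    have f1 := it_facts hHK hINT hs hA hb j
    have pl := pow_le hHK hINT hs hA hb hv hM0 hM j
    have i1 := (hINT N s A v _ hs hA hb hv (bj j)).2.2.2.2.1
    have i2 : Integrable (fun x => M ^ 2 * it N s A j x) :=
      ((hINT N s A _ _ hs hA hb f1.1 f1.1).2.2.2.1).const_mul _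
    have h2 : a j ≤ ∫ x, M ^ 2 * it N s A j x := by
      refine integral_mono i1 i2 fun x => ?_
      simp only
      calc v x * (TA N s A)^[j] v x ≤ |v x * (TA N s A)^[j] v x| := le_abs_self _
        _ = |v x| * |(TA N s A)^[j] v x| := abs_mul _ _
        _ ≤ M * (M * it N s A j x) :=
          mul_le_mul (hM x) (pl x) (abs_nonneg _) hM0
        _ = M ^ 2 * it N s A j x := by ring
    rw [integral_const_mul] at h2
    have h3 : ∫ x, it N s A j x ≤ τ ^ j * volume.real B :=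
      (hPhi j).trans (phi_bound hHK hINT hs hτ hB hBb hball j)
    exact h2.trans (mul_le_mul_of_nonneg_left h3 (sq_nonneg M))
  have both : ∀ k : ℕ, a 0 * r ^ (2 ^ k) ≤ M ^ 2 * volume.real B * τ ^ (2 ^ k) :=
    fun k => ((low k).trans (up _)).trans_eq (by ring)
  by_contra hcon
  push Not at hcon
  have hrt : τ < r := by
    rw [hr, lt_div_iff₀ a0pos]; exact hcon
  rcases hτ.lt_or_eq with hτ' | hτ'
  · have q1 : 1 < r / τ := by rwa [one_lt_div hτ']
    set C := M ^ 2 * volume.real B / a 0 with hC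
    have q2 : ∀ k : ℕ, (r / τ) ^ k ≤ C := by
      intro k
      have h2 : (r / τ) ^ k ≤ (r / τ) ^ (2 ^ k) :=
        pow_le_pow_right₀ q1.le Nat.lt_two_pow_self.le
      refine h2.trans ?_
      rw [div_pow, hC, div_le_div_iff₀ (pow_pos hτ' _) a0pos]
      have := both k
      linarith
    obtain ⟨k, hk⟩ := pow_unbounded_of_one_lt C q1
    exact absurd (q2 k) (not_le.2 hk)
  · have := both 0
    rw [← hτ'] at this
    simp only [pow_zero, pow_one, mul_zero] at this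
    have h5 : 0 < a 0 * r := mul_pos a0pos rpos
    linarith

/-- (CLO) if the functionals `Phi` of the bounded set `A` are at most those of the compact set `A'`
then the first eigenvalue of every open set which contains `A'` is at most the Rayleigh quotient of
every test function which vanishes outside `A`. -/
theorem clo {N : ℕ} (hN : 1 ≤ N) {A A' Ω' : Set (E N)} {v : E N → ℝ} (hA : MeasurableSet A)
    (hb : Bornology.IsBounded A) (hA' : IsCompact A') (hΩ' : IsOpen Ω') (hsub : A' ⊆ Ω')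
    (h1 : ContDiff ℝ (⊤ : ℕ∞) v) (h2 : HasCompactSupport v) (hv : ∀ x, x ∉ A → v x = 0)
    (hPhi : ∀ s : ℝ, 0 < s → ∀ m, Phi N s A m ≤ Phi N s A' m) :
    lam N 1 Ω' * ∫ x, v x ^ 2 ≤ ∫ x, ‖fderiv ℝ v x‖ ^ 2 := by
  have hI0 : 0 ≤ ∫ x, v x ^ 2 := integral_nonneg fun x => sq_nonneg _
  have hJ0 : 0 ≤ ∫ x, ‖fderiv ℝ v x‖ ^ 2 := integral_nonneg fun x => sq_nonneg _
  have hbd : Bd A v := by
    obtain ⟨C, hC⟩ := h1.continuous.bounded_above_of_compact_support h2
    exact ⟨h1.continuous.measurable, ⟨C, fun x => by simpa using hC x⟩, hv⟩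
  rcases le_or_gt (lam N 1 Ω') 0 with hl | hl
  · exact (mul_nonpos_of_nonpos_of_nonneg hl hI0).trans hJ0
  have hkey : ∀ κ : ℝ, 0 < κ → κ < lam N 1 Ω' →
      κ * ∫ x, v x ^ 2 ≤ ∫ x, ‖fderiv ℝ v x‖ ^ 2 := by
    intro κ hκ hκ1
    obtain ⟨s, hs, h⟩ := cut_rp_gen hN hA' hΩ' hsub hκ hκ1
    obtain ⟨h3, h4⟩ := h s hs le_rfl
    have h5 := pwr_gen hk_all int_all hs h3 hA hb hA'.isClosed.measurableSet hA'.isBounded hbd
      (hPhi s hs) (fun f hf => by
        refine le_trans ?_ (h4 f hf)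
        refine setIntegral_le_integral ?_ (Eventually.of_forall fun x => sq_nonneg _)
        -- integrability of the square of the smoothing
        have hm := int_all N s A' f f hs hA'.isClosed.measurableSet hA'.isBounded hf hf
        obtain ⟨Mf, hMf⟩ := hf.2.1
        have hsm := hm.2.2.2.2.2.2.2.2.1 Mf hMf
        have hsi := hm.2.2.2.2.2.2.2.1
        have hme := hm.2.2.2.2.2.2.1
        refine (hsi.norm.const_mul Mf).mono' (hme.pow_const 2).aestronglyMeasurable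
          (Eventually.of_forall fun x => ?_)
        rw [Real.norm_eq_abs, abs_of_nonneg (sq_nonneg _), Real.norm_eq_abs, ← sq_abs, sq]
        exact mul_le_mul_of_nonneg_right (hsm x) (abs_nonneg _))
    have h6 := enl_all N s v hs h1 h2
    have h7 : s * (κ * ∫ x, v x ^ 2) ≤ s * ∫ x, ‖fderiv ℝ v x‖ ^ 2 := by nlinarith
    exact le_of_mul_le_mul_left h7 hs
  have hcont : Continuous fun κ : ℝ => κ * ∫ x, v x ^ 2 := by fun_prop
  have hlim := (hcont.tendsto (lam N 1 Ω')).mono_left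
    (nhdsWithin_le_nhds (s := Iio (lam N 1 Ω')))
  apply le_of_tendsto hlim
  filter_upwards [Ioo_mem_nhdsLT hl] with κ hκ
  exact hkey κ hκ.1 hκ.2

end Pool.Agent.H85.LNN
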