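import Pool.Agent.H85.LNN.ASM2

/-! MP_8f7db2_an, all dimensions: C1, near-minimality of `λ₁` -/

set_option autoImplicit false

open MeasureTheory Metric Set ProbabilityTheory Filter
open scoped ENNReal Topology

namespace Pool.Agent.H85.LNN

open Pool.Agent.H85.LK

theorem bud_all : T_BUD :=
  Pool.Agent.H1.LK.pf_BUD Pool.Agent.H18.LK.pf_AP ne_all
    (Pool.Agent.H18.LK.pf_BUA Pool.Agent.H66.LK.pf_PLR) Pool.Agent.H19.LK.pf_BUB
    Pool.Agent.H99.LK.pf_HDY (Pool.Agent.H99.LK.pf_BUC Pool.Agent.H99.LK.pf_SYM)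

theorem lam_mono {N n n' : ℕ} {Ω : Set (E N)} (hN : 1 ≤ N) (hn : 1 ≤ n) (h : n ≤ n')
    (hΩ : IsOpen Ω) (hne : Ω.Nonempty) : lam N n Ω ≤ lam N n' Ω := by
  apply le_csInf (ne_all N n' Ω hN hΩ hne)
  intro c hc
  refine csInf_le ⟨0, fun c hc => Pool.Agent.H18.LK.pf_AP N n Ω c hn hc⟩ ?_
  exact Pool.Agent.H33.LK.pf_MON N n n' Ω Ω h le_rfl hc

/-- the ratio `DD / M2` is at least `2` -/
theorem ratio2 (b : ℝ) (hb : 1 ≤ b) :
    2 * M2 b (b ^ (-(1 / 3) : ℝ)) ≤ DD b (b ^ (-(1 / 3) : ℝ)) := by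
  have hb0 : 0 < b := by linarith
  set l : ℝ := b ^ (-(1 / 3) : ℝ) with hl
  have hl0 : 0 < l := Real.rpow_pos_of_pos hb0 _
  have hl1 : l ≤ 1 := Real.rpow_le_one_of_one_le_of_nonpos hb (by norm_num)
  have hs : 0 < (Real.sqrt (2 * Real.pi))⁻¹ := by positivity
  rw [Pool.Agent.H7.LK.chi_M2 b l hl0.le, Pool.Agent.H7.LK.chi_DD b l hl0.le]
  have h3 : 0 < l ^ 3 := by positivity
  have h5 : 0 < l ^ 5 := by positivity
  have hl2 : l ^ 2 ≤ 1 := by nlinarith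
  have h53 : l ^ 5 ≤ l ^ 3 := by
    have : l ^ 5 = l ^ 3 * l ^ 2 := by ring
    rw [this]
    exact mul_le_of_le_one_right h3.le hl2
  have h6 : 0 ≤ b ^ 2 * l ^ 5 / 30 + b * l ^ 6 / 30 + l ^ 7 / 105 := by positivity
  have : (Real.sqrt (2 * Real.pi))⁻¹ * (2 * (l ^ 5 / 30)) ≤
      (Real.sqrt (2 * Real.pi))⁻¹ * (l ^ 3 / 3 - l ^ 5 / 60 +
      1 / 4 * (b ^ 2 * l ^ 5 / 30 + b * l ^ 6 / 30 + l ^ 7 / 105)) :=
    mul_le_mul_of_nonneg_left (by nlinarith) hs.le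
  linarith

/-- the comparison of the lower bound with the ball, from the proof of `T_MA` -/
theorem ball_cmp (N n : ℕ) (r : ℝ) (hN : 3 ≤ N) (hn : 2 ≤ n) (hnN : n ≤ N + 1) (hr : 0 < r)
    (hc : 0 < 1 - 50 * Real.log n ^ (-(2 / 3) : ℝ)) :
    (1 - 50 * Real.log n ^ (-(2 / 3) : ℝ)) *
      (lam N (N + 1) (ball (0 : E N) r) - lam N 1 (ball (0 : E N) r)) ≤
    lam N 1 (ball (0 : E N) r) * (4 / N * (1 - 48 * Real.log n ^ (-(2 / 3) : ℝ))) := by
  have hN' : (3 : ℝ) ≤ N := by exact_mod_cast hN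
  have hΛ := pi_all N (by omega)
  have hB := bud_all N hN
  rw [(scl_all N 1 r hr).2.2, (scl_all N (N + 1) r hr).2.2]
  set Λ := lam N 1 (ball (0 : E N) 1) with hΛd
  set Λ' := lam N (N + 1) (ball (0 : E N) 1) with hΛd'
  set x : ℝ := Real.log n ^ (-(2 / 3) : ℝ) with hx
  have hr2 : 0 < r ^ 2 := by positivity
  have hnpos : (1 : ℝ) < n := by exact_mod_cast (by omega : 1 < n)
  have hL : 0 < Real.log n := Real.log_pos hnpos
  have hx0 : 0 < x := Real.rpow_pos_of_pos hL _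
  have hx50 : x < 1 / 50 := by linarith
  -- N is large compared with 1/x
  have hNx : 4 / (N : ℝ) ≤ x / 2 := by
    have e3 : Real.log n ^ 4 / 24 ≤ n := by
      have h := Real.pow_div_factorial_le_exp (Real.log n) hL.le 4
      rw [Real.exp_log (by linarith)] at h
      have : ((Nat.factorial 4 : ℕ) : ℝ) = 24 := by norm_num [Nat.factorial]
      rw [this] at h
      exact h
    have e4 : 1 ≤ Real.log n := by
      by_contra hcon
      push Not at hcon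
      have : 1 ≤ x := by
        rw [hx]
        exact Real.one_le_rpow_of_pos_of_le_one_of_nonpos hL hcon.le (by norm_num)
      linarith
    have e5 : 1 / Real.log n ≤ x := by
      rw [one_div, ← Real.rpow_neg_one, hx]
      exact Real.rpow_le_rpow_of_exponent_le e4 (by norm_num)
    have e6 : 50 ≤ Real.log n := by
      have : 1 / Real.log n < 1 / 50 := lt_of_le_of_lt e5 hx50
      rw [one_div_lt_one_div hL (by norm_num)] at this
      exact this.le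
    have e7 : (n : ℝ) ≤ N + 1 := by exact_mod_cast hnN
    have e8 : 8 * Real.log n ≤ N := by
      have e9 : 8 * Real.log n + 1 ≤ Real.log n ^ 4 / 24 := by
        nlinarith [pow_le_pow_left₀ (by norm_num : (0 : ℝ) ≤ 50) e6 3,
          mul_pos hL hL, pow_pos hL 3]
      linarith
    have e10 : 4 / (N : ℝ) ≤ 1 / (2 * Real.log n) := by
      rw [div_le_div_iff₀ (by linarith) (by positivity)]
      linarith
    calc 4 / (N : ℝ) ≤ 1 / (2 * Real.log n) := e10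
      _ = (1 / Real.log n) / 2 := by field_simp
      _ ≤ x / 2 := by linarith
  have hN8 : (100 : ℝ) ≤ N := by
    have h50 : x / 2 ≤ 1 / 100 := by linarith
    have : 4 / (N : ℝ) ≤ 1 / 100 := hNx.trans h50
    rw [div_le_div_iff₀ (by linarith) (by norm_num)] at this
    linarith
  -- main comparison
  have hΔ2 : Λ' / r ^ 2 - Λ / r ^ 2 ≤
      Λ / r ^ 2 * (4 * ((N : ℝ) - 1) / ((N : ℝ) - 2) ^ 2) := by
    rw [← sub_div, div_mul_eq_mul_div]
    apply div_le_div_of_nonneg_right _ hr2.le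
    linarith
  have hcmp : (1 - 50 * x) * (4 * ((N : ℝ) - 1) / ((N : ℝ) - 2) ^ 2) ≤
      4 / N * (1 - 48 * x) := by
    have hN2 : (0 : ℝ) < ((N : ℝ) - 2) ^ 2 := by nlinarith
    rw [mul_div_assoc', div_mul_eq_mul_div, div_le_div_iff₀ hN2 (by linarith)]
    have hNx' : 8 ≤ x * N := by
      rw [div_le_iff₀ (by linarith)] at hNx
      linarith
    nlinarith [mul_nonneg hx0.le (by linarith : (0 : ℝ) ≤ N)]
  have hΛr : 0 ≤ Λ / r ^ 2 := by positivity
  calc (1 - 50 * x) * (Λ' / r ^ 2 - Λ / r ^ 2)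
      ≤ (1 - 50 * x) * (Λ / r ^ 2 * (4 * ((N : ℝ) - 1) / ((N : ℝ) - 2) ^ 2)) :=
        mul_le_mul_of_nonneg_left hΔ2 hc.le
    _ = Λ / r ^ 2 * ((1 - 50 * x) * (4 * ((N : ℝ) - 1) / ((N : ℝ) - 2) ^ 2)) := by ring
    _ ≤ Λ / r ^ 2 * (4 / N * (1 - 48 * x)) := mul_le_mul_of_nonneg_left hcmp hΛr

/-- C1, general form: the excess of `λ_n(Ω)` controls the excess of `λ₁(Ω)` -/
theorem partB (N n : ℕ) (r : ℝ) (Ω : Set (E N)) (hN : 3 ≤ N) (hn : 2 ≤ n) (hnN : n ≤ N + 1)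
    (hr : 0 < r) (hΩ : IsOpen Ω) (hvol : volume Ω = volume (ball (0 : E N) r)) :
    (1 - 50 * Real.log n ^ (-(2 / 3) : ℝ)) *
        (lam N (N + 1) (ball (0 : E N) r) - lam N 1 (ball (0 : E N) r)) +
      1 / 2 * (lam N 1 Ω - lam N 1 (ball (0 : E N) r)) ≤
    lam N n Ω - lam N 1 (ball (0 : E N) r) := by
  have hN1 : 1 ≤ N := by omega
  have hNr : (0 : ℝ) < N := by exact_mod_cast hN1
  have hne := nonempty_of_vol hr hvol
  have hmon := lam_mono (n := 1) (n' := n) hN1 le_rfl (by omega) hΩ hne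
  have hF := lam_ge (n := 1) hN1 le_rfl hr hΩ hvol
  have hB0 := lam_ball_pos hN1 hr
  have hgap := lam_ge (n := N + 1) (Ω := ball (0 : E N) r) hN1 (by omega) hr isOpen_ball rfl
  set x : ℝ := Real.log n ^ (-(2 / 3) : ℝ) with hx
  have hL : 0 < Real.log n := Real.log_pos (by exact_mod_cast (by omega : 1 < n))
  have hx0 : 0 < x := Real.rpow_pos_of_pos hL _
  by_cases hc : 1 - 50 * x ≤ 0
  · have := mul_nonpos_of_nonpos_of_nonneg hc (sub_nonneg.2 hgap)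
    linarith
  · push Not at hc
    have hcmp := ball_cmp N n r hN hn hnN hr hc
    set b := Real.sqrt (Real.log n) with hb
    have hb1 : 1 ≤ b := by
      rw [hb, Real.one_le_sqrt]
      by_contra hcon
      push Not at hcon
      have : 1 ≤ Real.log n ^ (-(2 / 3) : ℝ) := by
        apply Real.one_le_rpow_of_pos_of_le_one_of_nonpos hL hcon.le (by norm_num)
      linarith
    have hA := partA N n r b Ω hN1 (by omega) hr hb1 hΩ hvol
    obtain ⟨hM, hMD, hDM⟩ := Pool.Agent.H7.LK.pf_CHI b hb1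
    have h2 := ratio2 b hb1
    set M := M2 b (b ^ (-(1 / 3) : ℝ)) with hMd
    set D := DD b (b ^ (-(1 / 3) : ℝ)) with hDd
    have hD : 0 < D := lt_of_lt_of_le hM hMD
    obtain ⟨μ, hμ⟩ : ∃ μ, μ = D / M := ⟨_, rfl⟩
    have hμ1 : 2 ≤ μ := by rw [hμ, le_div_iff₀ hM]; linarith
    have hμ2 : μ ≤ b ^ 2 / 4 + 11 * b ^ ((2 / 3) : ℝ) := by
      rw [hμ, div_le_iff₀ hM]; exact hDM
    have h3 := Pool.Agent.H71.LK.pf_NUM n b μ hn hb (by linarith) (by linarith) hμ2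
    set Lg := Real.log (1 / (Real.exp (1 - b ^ 2 / 2) + (b + b ^ (-(1 / 3) : ℝ)) ^ 4 / n)) with hLg
    set Λ := lam N 1 (ball (0 : E N) r) with hΛd
    set Λ1 := lam N 1 Ω with hΛ1
    set Λn := lam N n Ω with hΛn
    -- divide by `D`
    have hDμ : D = μ * M := by rw [hμ]; field_simp
    have hμ0 : 0 < μ := by linarith
    have h4 : Λ * (1 / μ * (1 + 2 / N * Lg)) + (1 - 1 / μ) * Λ1 ≤ Λn := by
      have h5 : μ * M * (Λ * (1 / μ * (1 + 2 / N * Lg)) + (1 - 1 / μ) * Λ1) ≤ μ * M * Λn := by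
        calc μ * M * (Λ * (1 / μ * (1 + 2 / N * Lg)) + (1 - 1 / μ) * Λ1)
            = Λ * (M * (1 + 2 / N * Lg)) + (μ * M - M) * Λ1 := by field_simp
          _ ≤ μ * M * Λn := by rw [← hDμ]; exact hA
      exact le_of_mul_le_mul_left h5 (by positivity)
    have h6 : Λ * (4 / N * (1 - 48 * x)) ≤ Λ * (2 / N * (1 / μ * Lg)) := by
      apply mul_le_mul_of_nonneg_left _ hB0.le
      calc 4 / (N : ℝ) * (1 - 48 * x) = 2 / N * (2 * (1 - 48 * x)) := by ring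
        _ ≤ 2 / N * (1 / μ * Lg) := mul_le_mul_of_nonneg_left h3 (by positivity)
    have h7 : Λ * (1 / μ * (1 + 2 / N * Lg)) = Λ * (1 / μ) + Λ * (2 / N * (1 / μ * Lg)) := by ring
    have h8 : 1 / μ ≤ 1 / 2 := one_div_le_one_div_of_le (by norm_num) hμ1
    have h9 : (1 / 2) * (Λ1 - Λ) ≤ (1 - 1 / μ) * (Λ1 - Λ) :=
      mul_le_mul_of_nonneg_right (by linarith) (by linarith)
    linarith

/-- C1: if `λ_n(Ω) ≤ λ_(N+1)(B)` then `λ₁(Ω)` is close to `λ₁(B)` -/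
theorem c1 (N n : ℕ) (r : ℝ) (Ω : Set (E N)) (hN : 3 ≤ N) (hn : 2 ≤ n) (hnN : n ≤ N + 1)
    (hr : 0 < r) (hΩ : IsOpen Ω) (hvol : volume Ω = volume (ball (0 : E N) r))
    (hle : lam N n Ω ≤ lam N (N + 1) (ball (0 : E N) r)) :
    lam N 1 (ball (0 : E N) r) ≤ lam N 1 Ω ∧
    lam N 1 Ω - lam N 1 (ball (0 : E N) r) ≤ 100 * Real.log n ^ (-(2 / 3) : ℝ) *
      (lam N (N + 1) (ball (0 : E N) r) - lam N 1 (ball (0 : E N) r)) := by
  have h1 := partB N n r Ω hN hn hnN hr hΩ hvol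
  have h2 := lam_ge (n := 1) (by omega) le_rfl hr hΩ hvol
  refine ⟨h2, ?_⟩
  nlinarith

/-- the gap of the ball -/
theorem gap_le (N : ℕ) (r : ℝ) (hN : 3 ≤ N) (hr : 0 < r) :
    lam N (N + 1) (ball (0 : E N) r) - lam N 1 (ball (0 : E N) r) ≤
      4 * ((N : ℝ) - 1) / ((N : ℝ) - 2) ^ 2 * lam N 1 (ball (0 : E N) r) := by
  have hB := bud_all N hN
  rw [(scl_all N 1 r hr).2.2, (scl_all N (N + 1) r hr).2.2, ← sub_div, mul_div_assoc']
  apply div_le_div_of_nonneg_right _ (by positivity)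
  linarith

end Pool.Agent.H85.LNN
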