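import Pool.Agent.H85.LNN.C1
import Pool.Agent.H69.LQ.Targets

/-! MP_8f7db2_an, all dimensions: C1, the form for large dimensions -/

set_option autoImplicit false

open MeasureTheory Metric Set Filter
open scoped ENNReal Topology

namespace Pool.Agent.H85.LNN

open Pool.Agent.H85.LK
open Pool.Agent.H69.LQ (Fz T_UB T_FZ)

/-- the sequence `(log (N + 1))^(-2/3)` tends to zero -/
theorem x_lim : Tendsto (fun N : ℕ => Real.log ((N + 1 : ℕ) : ℝ) ^ (-(2 / 3) : ℝ)) atTop (𝓝 0) := by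
  have h1 : Tendsto (fun N : ℕ => Real.log ((N + 1 : ℕ) : ℝ)) atTop atTop :=
    Real.tendsto_log_atTop.comp
      (tendsto_natCast_atTop_atTop.comp (tendsto_add_atTop_nat 1))
  have h2 := (tendsto_rpow_neg_atTop (y := (2 / 3 : ℝ)) (by norm_num)).comp h1
  exact h2

/-- C1 for large `N`: a set which is not worse than the ball is nearly optimal for `λ₁` -/
theorem c1e (hUB : T_UB) (hFZ : T_FZ)
    (hQ : ∀ (N : ℕ) (L : ℝ), 2 ≤ N → Fz N L → L < ((N : ℝ) + 2) ^ 2) (e : ℝ) (he : 0 < e) :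
    ∃ N₀ : ℕ, 3 ≤ N₀ ∧ ∀ N : ℕ, N₀ ≤ N → ∀ Ω : Set (E N), IsOpen Ω →
      volume Ω = volume (ball (0 : E N) 1) →
      lam N (N + 1) Ω ≤ lam N (N + 1) (ball (0 : E N) 1) →
      lam N 1 (ball (0 : E N) 1) ≤ lam N 1 Ω ∧
        lam N 1 Ω ≤ lam N 1 (ball (0 : E N) 1) + e * N := by
  have h1 : ∀ᶠ N : ℕ in atTop, Real.log ((N + 1 : ℕ) : ℝ) ^ (-(2 / 3) : ℝ) < e / 3600 :=
    (x_lim.eventually (gt_mem_nhds (by positivity)))
  obtain ⟨N₁, hN₁⟩ := (h1.and (eventually_ge_atTop 4)).exists_forall_of_atTop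
  refine ⟨max N₁ 4, le_trans (by norm_num) (le_max_right _ _), fun N hN Ω hΩ hvol hle => ?_⟩
  have hN4 : 4 ≤ N := le_trans (le_max_right _ _) hN
  have hNr : (4 : ℝ) ≤ N := by exact_mod_cast hN4
  obtain ⟨hx, -⟩ := hN₁ N (le_trans (le_max_left _ _) hN)
  obtain ⟨h2, h3⟩ := c1 N (N + 1) 1 Ω (by omega) (by omega) le_rfl one_pos hΩ hvol hle
  refine ⟨h2, ?_⟩
  have hg := gap_le N 1 (by omega) one_pos
  have hmono := lam_mono (n := 1) (n' := N + 1) (Ω := ball (0 : E N) 1) (by omega) le_rfl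
    (by omega) isOpen_ball ⟨0, mem_ball_self one_pos⟩
  obtain ⟨L, hL⟩ := hFZ N (by omega)
  have hub := hUB N L (by omega) hL
  have hq := hQ N L (by omega) hL
  have hl1 : lam N 1 (ball (0 : E N) 1) ≤ ((N : ℝ) + 2) ^ 2 := by linarith
  set x : ℝ := Real.log ((N + 1 : ℕ) : ℝ) ^ (-(2 / 3) : ℝ) with hxd
  have hx0 : 0 ≤ x := Real.rpow_nonneg (Real.log_nonneg (by exact_mod_cast (by omega))) _
  have hgap : lam N (N + 1) (ball (0 : E N) 1) - lam N 1 (ball (0 : E N) 1) ≤ 36 * N := by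
    have hN2 : (0 : ℝ) < ((N : ℝ) - 2) ^ 2 := by
      have : (0 : ℝ) < (N : ℝ) - 2 := by linarith
      positivity
    calc lam N (N + 1) (ball (0 : E N) 1) - lam N 1 (ball (0 : E N) 1)
        ≤ 4 * ((N : ℝ) - 1) / ((N : ℝ) - 2) ^ 2 * lam N 1 (ball (0 : E N) 1) := hg
      _ ≤ 4 * ((N : ℝ) - 1) / ((N : ℝ) - 2) ^ 2 * ((N : ℝ) + 2) ^ 2 :=
          mul_le_mul_of_nonneg_left hl1 (div_nonneg (by linarith) hN2.le)
      _ ≤ 36 * N := by
          rw [div_mul_eq_mul_div, div_le_iff₀ hN2]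
          have h5 : (N : ℝ) + 2 ≤ 3 * ((N : ℝ) - 2) := by linarith
          have h6 : ((N : ℝ) + 2) ^ 2 ≤ 9 * ((N : ℝ) - 2) ^ 2 := by nlinarith
          nlinarith
  have hgap0 : 0 ≤ lam N (N + 1) (ball (0 : E N) 1) - lam N 1 (ball (0 : E N) 1) := by linarith
  calc lam N 1 Ω ≤ lam N 1 (ball (0 : E N) 1) + 100 * x *
        (lam N (N + 1) (ball (0 : E N) 1) - lam N 1 (ball (0 : E N) 1)) := by linarith
    _ ≤ lam N 1 (ball (0 : E N) 1) + 100 * x * (36 * N) := by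
        have := mul_le_mul_of_nonneg_left hgap (by positivity : 0 ≤ 100 * x)
        linarith
    _ ≤ _ := by nlinarith

end Pool.Agent.H85.LNN
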