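import Pool.Agent.H85.LNN.C1E
import Pool.Agent.H69.LNN.Targets2
import Pool.Agent.H68.LQ1.QN

/-! MP_8f7db2_an, all dimensions: row C1Q of board lnn_modules -/

set_option autoImplicit false

open MeasureTheory Metric Set Filter
open scoped ENNReal Topology

namespace Pool.Agent.H85.LNN

open Pool.Agent.H85.LK
open Pool.Agent.H69.LQ (Fz T_UB T_FZ T_PH T_PV)

theorem pf_C1Q (hFZ : T_FZ) (hUB : T_UB) (hPH : T_PH) (hPV : T_PV) :
    Pool.Agent.H69.LNN.T_C1Q := by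
  intro e he
  have h1 : ∀ᶠ N : ℕ in atTop, Real.log ((N + 1 : ℕ) : ℝ) ^ (-(2 / 3) : ℝ) < e / 7200 :=
    (x_lim.eventually (gt_mem_nhds (by positivity)))
  obtain ⟨N₁, hN₁⟩ := (h1.and (eventually_ge_atTop 4)).exists_forall_of_atTop
  refine ⟨e / 8, max N₁ 4, by positivity, le_trans (by norm_num) (le_max_right _ _),
    fun N Ω hN hΩ hvol hle => ?_⟩
  have hN4 : 4 ≤ N := le_trans (le_max_right _ _) hN
  have hNr : (4 : ℝ) ≤ N := by exact_mod_cast hN4
  obtain ⟨hx, -⟩ := hN₁ N (le_trans (le_max_left _ _) hN)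
  have h2 := partB N (N + 1) 1 Ω (by omega) (by omega) le_rfl one_pos hΩ hvol
  have hg := gap_le N 1 (by omega) one_pos
  have hmono := lam_mono (n := 1) (n' := N + 1) (Ω := ball (0 : E N) 1) (by omega) le_rfl
    (by omega) isOpen_ball ⟨0, mem_ball_self one_pos⟩
  obtain ⟨L, hL⟩ := hFZ N (by omega)
  have hub := hUB N L (by omega) hL
  have hq := Pool.Agent.H68.LQ1.qn_upper hPH hPV N L (by omega) hL
  have hl1 : lam N 1 (ball (0 : E N) 1) ≤ ((N : ℝ) + 2) ^ 2 := by linarith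
  set x : ℝ := Real.log ((N + 1 : ℕ) : ℝ) ^ (-(2 / 3) : ℝ) with hxd
  have hx0 : 0 ≤ x := Real.rpow_nonneg (Real.log_nonneg (by exact_mod_cast (by omega))) _
  have hgap : lam N (N + 1) (ball (0 : E N) 1) - lam N 1 (ball (0 : E N) 1) ≤ 36 * N := by
    have hN2 : (0 : ℝ) < ((N : ℝ) - 2) ^ 2 := by
      have : (0 : ℝ) < (N : ℝ) - 2 := by linarith
      positivity
    calc lam N (N + 1) (ball (0 : E N) 1) - lam N 1 (ball (0 : E N) 1)
        ≤ 4 * ((N : ℝ) - 1) / ((N : ℝ) - 2) ^ 2 * lam N 1 (ball (0 : E N) 1) := hg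
      _ ≤ 4 * ((N : ℝ) - 1) / ((N : ℝ) - 2) ^ 2 * ((N : ℝ) + 2) ^ 2 :=
          mul_le_mul_of_nonneg_left hl1 (div_nonneg (by linarith) hN2.le)
      _ ≤ 36 * N := by
          rw [div_mul_eq_mul_div, div_le_iff₀ hN2]
          have h5 : (N : ℝ) + 2 ≤ 3 * ((N : ℝ) - 2) := by linarith
          have h6 : ((N : ℝ) + 2) ^ 2 ≤ 9 * ((N : ℝ) - 2) ^ 2 := by nlinarith
          nlinarith
  have hgap0 : 0 ≤ lam N (N + 1) (ball (0 : E N) 1) - lam N 1 (ball (0 : E N) 1) := by linarith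
  have h3 : 100 * x * (lam N (N + 1) (ball (0 : E N) 1) - lam N 1 (ball (0 : E N) 1)) ≤
      100 * x * (36 * N) := mul_le_mul_of_nonneg_left hgap (by positivity)
  have h4 : 100 * x * (36 * N) ≤ e / 2 * N := by nlinarith
  nlinarith

end Pool.Agent.H85.LNN
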