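import Pool.Agent.H85.LNN.LS
import Pool.Agent.H69.LNN.Targets2

/-! MP_8f7db2_an, all dimensions: row CLQ of board lnn_modules -/

set_option autoImplicit false

open MeasureTheory Metric Set
open scoped ENNReal

namespace Pool.Agent.H85.LNN

open Pool.Agent.H85.LK (E adm lam)
open Pool.Agent.H69.LNN

/-- closeness to a ball -/
theorem pf_CLQ (hC1Q : T_C1Q) (hC2 : T_C2) (hLS : T_LS) : T_CLQ := by
  obtain ⟨d0, hd0, hls⟩ := hLS
  intro δ hδ
  obtain ⟨d, hd⟩ : ∃ d, d = min δ (d0 / 2) := ⟨_, rfl⟩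
  have hdpos : 0 < d := by rw [hd]; positivity
  have hdd0 : d ≤ d0 / 2 := hd ▸ min_le_right _ _
  obtain ⟨c, z, N1, hc, hz, hN1, h1⟩ := hls (d / 2) (by positivity) (by linarith)
  obtain ⟨η, N2, hη, hN2, h2⟩ := hC1Q (c / 2) (by positivity)
  refine ⟨η, max N1 N2, hη, hN1.trans (le_max_left _ _), fun N Ω hN hΩ hvol hle => ?_⟩
  have hNN1 : N1 ≤ N := (le_max_left _ _).trans hN
  have hNN2 : N2 ≤ N := (le_max_right _ _).trans hN
  have hvb := vB_pos N
  have hN3 : (3 : ℝ) ≤ N := by exact_mod_cast hN1.trans hNN1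
  by_contra hcon
  push Not at hcon
  have hfar : ∀ o : E N, d * vB N < volume.real (symmDiff Ω (ball o 1)) := fun o =>
    lt_of_le_of_lt (mul_le_mul_of_nonneg_right (hd ▸ min_le_left _ _) hvb.le) (hcon o)
  obtain ⟨w, hw⟩ : ∃ w, w = min (min z (d / 2)) (c / 4) := ⟨_, rfl⟩
  have hw0 : 0 < w := by rw [hw]; positivity
  have hwz : w ≤ z := hw ▸ (min_le_left _ _).trans (min_le_left _ _)
  have hwd : w ≤ d / 2 := hw ▸ (min_le_left _ _).trans (min_le_right _ _)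
  have hwc : w ≤ c / 4 := hw ▸ min_le_right _ _
  obtain ⟨Ω', ho, hb, hv, hlo, ⟨o, hup⟩, hlam⟩ := hC2 N d w Ω (by omega) hdpos hw0 hΩ hvol hfar
  have h3 := h1 N Ω' hNN1 ho (hb.measure_lt_top).ne
    (hv.trans (mul_le_mul_of_nonneg_right (by linarith) hvb.le))
    ⟨o, hup.trans (mul_le_mul_of_nonneg_right (by linarith) hvb.le)⟩
    (fun o => (mul_le_mul_of_nonneg_right (by linarith) hvb.le).trans (hlo o))
  have h4 := h2 N Ω hNN2 hΩ hvol hle
  nlinarith

end Pool.Agent.H85.LNN
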