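import Pool.Agent.H68.LK.RP
import Pool.Agent.H17.LK.RPT

/-! MP_8f7db2_an: the heat form on functions with compact support in an open set -/

set_option autoImplicit false

open MeasureTheory Metric Set ProbabilityTheory Filter
open scoped ENNReal Topology NNReal ContDiff

namespace Pool.Agent.H85.LNN

open Pool.Agent.H85.LK

/-- smooth cut-off -/
theorem cutoff {N : ℕ} {K Ω : Set (E N)} (hK : IsCompact K) (hΩ : IsOpen Ω) (h : K ⊆ Ω) :
    ∃ (η : ℝ) (ζ : E N → ℝ), 0 < η ∧ ContDiff ℝ ∞ ζ ∧ HasCompactSupport ζ ∧ tsupport ζ ⊆ Ω ∧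
      (∀ x, 0 ≤ ζ x ∧ ζ x ≤ 1) ∧ ∀ x ∈ thickening η K, ζ x = 1 := by
  obtain ⟨δ, hδ, hsub⟩ := hK.exists_cthickening_subset_open hΩ h
  have hd : Disjoint (thickening δ K)ᶜ (cthickening (δ / 2) K) := by
    rw [disjoint_compl_left_iff_subset]
    exact cthickening_subset_thickening' hδ (by linarith) K
  obtain ⟨f, h0, h1, h2⟩ := exists_contMDiffMap_zero_one_of_isClosed (n := ⊤)
    (modelWithCornersSelf ℝ (E N)) isOpen_thickening.isClosed_compl isClosed_cthickening hd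
  have hsupp : tsupport (fun x => f x) ⊆ cthickening δ K := by
    refine closure_minimal (fun x hx => ?_) isClosed_cthickening
    by_contra hcon
    apply hx
    exact h0 (fun hx' => hcon (thickening_subset_cthickening _ _ hx'))
  refine ⟨δ / 2, fun x => f x, by linarith, f.contMDiff.contDiff, ?_, hsupp.trans hsub,
    fun x => ⟨(h2 x).1, (h2 x).2⟩, fun x hx => h1 (thickening_subset_cthickening _ _ hx)⟩
  exact HasCompactSupport.of_support_subset_isCompact hK.cthickening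
    ((subset_tsupport _).trans hsupp)

/-- the tail of the smoothing -/
theorem tail (hHK : T_HK) (hINT : T_INT) (N : ℕ) (s η : ℝ) (K : Set (E N)) (f : E N → ℝ)
    (hs : 0 < s) (hη : 0 < η) (hKm : MeasurableSet K) (hKb : Bornology.IsBounded K)
    (hf : Bd K f) :
    ∫ x in (thickening η K)ᶜ, sm N s f x ^ 2 ≤
      (∫ z in {z : E N | η ≤ ‖z‖}, hk N s z) * ∫ x, f x ^ 2 := by
  obtain ⟨kpos, kcont, kint, kone, -⟩ := hHK N s hs
  obtain ⟨-, -, i3, fint, -, ffint, smm, smi, -, -, -⟩ :=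
    hINT N s K f f hs hKm hKb hf hf
  set S : Set (E N) := {z : E N | η ≤ ‖z‖} with hS
  have hSm : MeasurableSet S := measurableSet_le measurable_const measurable_norm
  set k : E N → ℝ := S.indicator (hk N s) with hk'
  have k0 : ∀ z, 0 ≤ k z := fun z => indicator_nonneg (fun z _ => (kpos z).le) z
  have kle : ∀ z, k z ≤ hk N s z := fun z => indicator_le_self' (fun z _ => (kpos z).le) z
  have kI : Integrable k := kint.indicator hSm
  have kM : Measurable k := kcont.measurable.indicator hSm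
  obtain ⟨M, hM⟩ := hf.2.1
  have hff : Bd K (fun y => f y ^ 2) :=
    ⟨hf.1.pow_const 2, ⟨M ^ 2, fun x => by
      rw [abs_pow]
      exact pow_le_pow_left₀ (abs_nonneg _) (hM x) 2⟩, fun x hx => by
      show f x ^ 2 = 0
      rw [hf.2.2 x hx]
      ring⟩
  have hptf : ∀ x, Integrable (fun y => hk N s (x - y) * f y ^ 2) :=
    (hINT N s K (fun y => f y ^ 2) f hs hKm hKb hff
      hf).2.2.2.2.2.2.2.2.2.1
  have hkx : ∀ x, Integrable (fun y => k (x - y)) := fun x => kI.comp_sub_left x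
  have hkM : ∀ x, Measurable (fun y => k (x - y)) := fun x =>
    kM.comp (measurable_const.sub measurable_id)
  have hb : ∀ (w : E N → ℝ), Measurable w → (∃ C : ℝ, ∀ x, |w x| ≤ C) → ∀ x,
      Integrable (fun y => k (x - y) * w y) := by
    intro w hw ⟨C, hC⟩ x
    refine ((hkx x).mul_const C).mono' ((hkM x).mul hw).aestronglyMeasurable
      (Filter.Eventually.of_forall fun y => ?_)
    rw [Real.norm_eq_abs, abs_mul, abs_of_nonneg (k0 _)]
    exact mul_le_mul_of_nonneg_left (hC y) (k0 _)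
  have hP : ∀ x, ∫ y, k (x - y) = ∫ z in S, hk N s z := by
    intro x
    rw [integral_sub_left_eq_self k volume x, hk', integral_indicator hSm]
  have hP0 : 0 ≤ ∫ z in S, hk N s z := integral_nonneg fun z => (kpos z).le
  have hpt : ∀ x : E N, x ∈ (thickening η K)ᶜ → sm N s f x ^ 2 ≤
      (∫ z in S, hk N s z) * ∫ y, hk N s (x - y) * f y ^ 2 := by
    intro x hx
    have e : sm N s f x = ∫ y, k (x - y) * f y := by
      rw [sm]
      refine integral_congr_ae (Filter.Eventually.of_forall fun y => ?_)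
      show hk N s (x - y) * f y = k (x - y) * f y
      by_cases hy : y ∈ K
      · have h1 : x - y ∈ S := by
          show η ≤ ‖x - y‖
          by_contra hcon
          apply hx
          rw [mem_thickening_iff]
          exact ⟨y, hy, by rw [dist_eq_norm]; exact not_le.1 hcon⟩
        rw [hk', indicator_of_mem h1]
      · rw [hf.2.2 y hy, mul_zero, mul_zero]
    rw [e]
    refine (Pool.Agent.H17.LK.cs_aux volume (fun y => k (x - y)) f (fun y => k0 _) (hkx x)
      (hb f hf.1 hf.2.1 x) (hb _ hff.1 hff.2.1 x)).trans ?_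
    rw [hP x]
    refine mul_le_mul_of_nonneg_left ?_ hP0
    exact integral_mono (hb _ hff.1 hff.2.1 x) (hptf x) fun y =>
      mul_le_mul_of_nonneg_right (kle _) (sq_nonneg _)
  set H : E N → ℝ := fun x => ∫ y, hk N s (x - y) * f y ^ 2 with hH
  have hHi : Integrable H := i3.integral_prod_left
  have hH0 : ∀ x, 0 ≤ H x := fun x =>
    integral_nonneg fun y => mul_nonneg (kpos _).le (sq_nonneg _)
  have hHint : ∫ x, H x = ∫ x, f x ^ 2 := by
    rw [hH, integral_integral_swap (f := fun x y => hk N s (x - y) * f y ^ 2) i3]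
    refine integral_congr_ae (Filter.Eventually.of_forall fun y => ?_)
    show ∫ x, hk N s (x - y) * f y ^ 2 = f y ^ 2
    rw [integral_mul_const, integral_sub_right_eq_self (hk N s) y, kone, one_mul]
  have hSx : MeasurableSet ((thickening η K)ᶜ) := isOpen_thickening.measurableSet.compl
  calc ∫ x in (thickening η K)ᶜ, sm N s f x ^ 2 ≤
      ∫ x in (thickening η K)ᶜ, (∫ z in S, hk N s z) * H x := by
        refine integral_mono_of_nonneg (Filter.Eventually.of_forall fun x => sq_nonneg _)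
          (hHi.integrableOn.const_mul _) ?_
        filter_upwards [ae_restrict_mem hSx] with x hx
        exact hpt x hx
    _ = (∫ z in S, hk N s z) * ∫ x in (thickening η K)ᶜ, H x := integral_const_mul _ _
    _ ≤ (∫ z in S, hk N s z) * ∫ x, H x :=
        mul_le_mul_of_nonneg_left
          (setIntegral_le_integral hHi (Filter.Eventually.of_forall hH0)) hP0
    _ = _ := by rw [hHint]

/-- the energy estimate -/
theorem cut_energy (hRPS : T_RPS) (hRPA : T_RPA) (hLA : T_LA) {N : ℕ} (hN : 1 ≤ N)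
    {K Ω : Set (E N)} (hK : IsCompact K) (hΩ : IsOpen Ω) (hKΩ : K ⊆ Ω)
    (hKB : K ⊆ ball (0 : E N) 1) {K' δ : ℝ} (hK' : 0 < K') (hδ : 0 < δ)
    (hlam : K' ≤ lam N 1 Ω) :
    ∃ η M : ℝ, 0 < η ∧ 0 ≤ M ∧ ∀ (s : ℝ) (f : E N → ℝ), 0 < s → Bd K f →
      K' * ((∫ x, sm N s f x ^ 2) - ∫ x in (thickening η K)ᶜ, sm N s f x ^ 2) ≤
        (1 + δ) * (∫ x, ‖fderiv ℝ (sm N s f) x‖ ^ 2) +
          (1 + 1 / δ) * M ^ 2 * ∫ x in (thickening η K)ᶜ, sm N s f x ^ 2 := by
  obtain ⟨η, ζ, hη, hζs, hζc, hζt, hζ01, hζ1⟩ := cutoff hK hΩ hKΩ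
  obtain ⟨M, hM⟩ := (hζs.continuous_fderiv (by simp)).bounded_above_of_compact_support
    (hζc.fderiv ℝ)
  have hM0 : 0 ≤ M := (norm_nonneg _).trans (hM 0)
  refine ⟨η, M, hη, hM0, fun s f hs hfK => ?_⟩
  have hf : Bd (ball (0 : E N) 1) f := ⟨hfK.1, hfK.2.1, fun x hx => hfK.2.2 x (fun h => hx (hKB h))⟩
  obtain ⟨hFs, -⟩ := hRPS N s f hs hf
  obtain ⟨hF2, hD2, -⟩ := hRPA N s f hs hf
  set F : E N → ℝ := sm N s f with hF
  set S : Set (E N) := (thickening η K)ᶜ with hSdef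
  have hS : MeasurableSet S := isOpen_thickening.measurableSet.compl
  set v : E N → ℝ := fun x => ζ x * F x with hv
  have hvs : ContDiff ℝ (⊤ : ℕ∞) v := hζs.mul hFs
  have hvc : HasCompactSupport v := hζc.mul_right
  have hvt : tsupport v ⊆ Ω := (tsupport_mul_subset_left).trans hζt
  have hla := hLA N Ω v hN hvs hvc hvt
  have hv2i : Integrable (fun x => v x ^ 2) := by
    have c1 : Continuous (fun x => v x ^ 2) := hvs.continuous.pow 2
    have c2 : HasCompactSupport (fun x => v x ^ 2) :=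
      hvc.comp_left (g := fun y : ℝ => y ^ 2) (by norm_num)
    exact c1.integrable_of_hasCompactSupport c2
  have hvdi : Integrable (fun x => ‖fderiv ℝ v x‖ ^ 2) := by
    have c1 : Continuous (fun x => ‖fderiv ℝ v x‖ ^ 2) :=
      (hvs.continuous_fderiv (by simp)).norm.pow 2
    have c2 : HasCompactSupport (fun x => ‖fderiv ℝ v x‖ ^ 2) :=
      (hvc.fderiv ℝ).comp_left (g := fun y : E N →L[ℝ] ℝ => ‖y‖ ^ 2) (by simp)
    exact c1.integrable_of_hasCompactSupport c2
  have hSi : Integrable (S.indicator fun x => F x ^ 2) := hF2.indicator hS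
  have hv20 : 0 ≤ ∫ x, v x ^ 2 := integral_nonneg fun x => sq_nonneg _
  -- lower bound for the norm of `v`
  have h1 : (∫ x, F x ^ 2) ≤ (∫ x, v x ^ 2) + ∫ x in S, F x ^ 2 := by
    rw [← integral_indicator hS, ← integral_add hv2i hSi]
    refine integral_mono hF2 (hv2i.add hSi) fun x => ?_
    show F x ^ 2 ≤ v x ^ 2 + S.indicator (fun x => F x ^ 2) x
    by_cases hx : x ∈ S
    · rw [indicator_of_mem hx]
      nlinarith [sq_nonneg (v x)]
    · have hx' : x ∈ thickening η K := not_not.1 hx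
      rw [indicator_of_notMem hx]
      have : v x = F x := by
        show ζ x * F x = F x
        rw [hζ1 x hx', one_mul]
      rw [this, add_zero]
  -- upper bound for the gradient
  have h2 : (∫ x, ‖fderiv ℝ v x‖ ^ 2) ≤ (1 + δ) * (∫ x, ‖fderiv ℝ F x‖ ^ 2) +
      (1 + 1 / δ) * M ^ 2 * ∫ x in S, F x ^ 2 := by
    rw [← integral_indicator hS, ← integral_const_mul, ← integral_const_mul,
      ← integral_add (hD2.const_mul _) (hSi.const_mul _)]
    refine integral_mono hvdi ((hD2.const_mul _).add (hSi.const_mul _)) fun x => ?_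
    show ‖fderiv ℝ v x‖ ^ 2 ≤ (1 + δ) * ‖fderiv ℝ F x‖ ^ 2 +
      (1 + 1 / δ) * M ^ 2 * S.indicator (fun x => F x ^ 2) x
    by_cases hx : x ∈ S
    · rw [indicator_of_mem hx]
      have hd : fderiv ℝ v x = ζ x • fderiv ℝ F x + F x • fderiv ℝ ζ x :=
        fderiv_fun_mul (hζs.differentiable (by simp) x) (hFs.differentiable (by simp) x)
      have h3 : ‖fderiv ℝ v x‖ ≤ ‖fderiv ℝ F x‖ + M * |F x| := by
        rw [hd]
        refine (norm_add_le _ _).trans (add_le_add ?_ ?_)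
        · rw [norm_smul, Real.norm_eq_abs, abs_of_nonneg (hζ01 x).1]
          exact mul_le_of_le_one_left (norm_nonneg _) (hζ01 x).2
        · rw [norm_smul, Real.norm_eq_abs, mul_comm]
          exact mul_le_mul_of_nonneg_right (hM x) (abs_nonneg _)
      calc ‖fderiv ℝ v x‖ ^ 2 ≤ (‖fderiv ℝ F x‖ + M * |F x|) ^ 2 :=
            pow_le_pow_left₀ (norm_nonneg _) h3 2
        _ ≤ (1 + δ) * ‖fderiv ℝ F x‖ ^ 2 + (1 + 1 / δ) * (M * |F x|) ^ 2 :=
            Pool.Agent.H68.LK.rp_sq hδ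
        _ = _ := by rw [mul_pow, sq_abs]; ring
    · have hx' : x ∈ thickening η K := not_not.1 hx
      rw [indicator_of_notMem hx]
      have he : v =ᶠ[𝓝 x] F := by
        filter_upwards [isOpen_thickening.mem_nhds hx'] with y hy
        show ζ y * F y = F y
        rw [hζ1 y hy, one_mul]
      rw [he.fderiv_eq, mul_zero, add_zero]
      nlinarith [sq_nonneg ‖fderiv ℝ F x‖]
  have h3 : K' * ∫ x, v x ^ 2 ≤ ∫ x, ‖fderiv ℝ v x‖ ^ 2 :=
    (mul_le_mul_of_nonneg_right hlam hv20).trans hla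
  have h4 : K' * ((∫ x, F x ^ 2) - ∫ x in S, F x ^ 2) ≤ K' * ∫ x, v x ^ 2 :=
    mul_le_mul_of_nonneg_left (by linarith) hK'.le
  linarith

theorem cut_rp (hHK : T_HK) (hINT : T_INT) (hRPS : T_RPS) (hRPA : T_RPA) (hLA : T_LA)
    {N : ℕ} (hN : 1 ≤ N) {K0 Ω : Set (E N)} (hK0c : IsCompact K0) (hΩ : IsOpen Ω)
    (hKΩ : K0 ⊆ Ω) (hKB : K0 ⊆ ball (0 : E N) 1) {K : ℝ} (hK0 : 0 < K) (hK : K < lam N 1 Ω) :
    ∃ s₀ : ℝ, 0 < s₀ ∧ ∀ s : ℝ, 0 < s → s ≤ s₀ → 0 ≤ 1 - s * K ∧
      ∀ f : E N → ℝ, Bd K0 f →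
        ∫ x, sm N s f x ^ 2 ≤ (1 - s * K) ^ 2 * ∫ x, f x ^ 2 := by
  obtain ⟨K', hKK', hK'l⟩ := exists_between hK
  have hK'0 : 0 < K' := hK0.trans hKK'
  obtain ⟨δ, hδ0, hδ1⟩ : ∃ δ : ℝ, 0 < δ ∧ K * (1 + δ) < K' := by
    refine ⟨(K' - K) / (2 * K), div_pos (by linarith) (by linarith), ?_⟩
    have : K * (1 + (K' - K) / (2 * K)) = K + (K' - K) / 2 := by
      field_simp
    rw [this]
    linarith
  obtain ⟨K2, hK2⟩ : ∃ K2, K2 = K' / (1 + δ) := ⟨_, rfl⟩
  have hKK2 : K < K2 := by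
    rw [hK2, lt_div_iff₀ (by linarith)]
    exact hδ1
  have hK20 : 0 < K2 := hK0.trans hKK2
  obtain ⟨η, M, hη0, hM0, hen⟩ := cut_energy hRPS hRPA hLA hN hK0c hΩ hKΩ hKB hK'0 hδ0 hK'l.le
  obtain ⟨C, hC⟩ : ∃ C, C = K2 + (1 + 1 / δ) * M ^ 2 / (1 + δ) := ⟨_, rfl⟩
  have hC0 : 0 < C := by
    rw [hC]
    have : 0 ≤ (1 + 1 / δ) * M ^ 2 / (1 + δ) := by positivity
    linarith
  obtain ⟨Q, hQ⟩ : ∃ Q : ℝ, Q = 2 ^ ((N : ℝ) / 2) := ⟨_, rfl⟩
  have hQ0 : 0 < Q := hQ ▸ Real.rpow_pos_of_pos two_pos _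
  refine ⟨min (1 / K) (min ((K2 - K) / (4 * K * K2)) ((K2 - K) * η ^ 2 / (16 * C * Q))),
    lt_min (by positivity) (lt_min (div_pos (by linarith) (by positivity))
      (div_pos (mul_pos (by linarith) (by positivity)) (by positivity))), fun s hs hs0 => ?_⟩
  have hs1 : s ≤ 1 / K := hs0.trans (min_le_left _ _)
  have hs2 : s ≤ (K2 - K) / (4 * K * K2) :=
    hs0.trans ((min_le_right _ _).trans (min_le_left _ _))
  have hs3 : s ≤ (K2 - K) * η ^ 2 / (16 * C * Q) :=
    hs0.trans ((min_le_right _ _).trans (min_le_right _ _))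
  rw [le_div_iff₀ hK0] at hs1
  rw [le_div_iff₀ (by positivity)] at hs2 hs3
  refine ⟨by linarith, fun f hfK => ?_⟩
  have hf : Bd (ball (0 : E N) 1) f := ⟨hfK.1, hfK.2.1, fun x hx => hfK.2.2 x (fun h => hx (hKB h))⟩
  obtain ⟨-, -, hA⟩ := hRPA N s f hs hf
  have hen' := hen s f hs hfK
  have hT := tail hHK hINT N s η K0 f hs hη0 hK0c.isClosed.measurableSet hK0c.isBounded hfK
  have hP := (hHK N s hs).2.2.2.2.2.2.2 η hη0.le
  set A0 : ℝ := ∫ x, f x ^ 2 with hA0
  set X : ℝ := ∫ x, sm N s f x ^ 2 with hX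
  set D : ℝ := ∫ x, ‖fderiv ℝ (sm N s f) x‖ ^ 2 with hD
  set T : ℝ := ∫ x in (thickening η K0)ᶜ, sm N s f x ^ 2 with hTd
  have hA00 : 0 ≤ A0 := integral_nonneg fun x => sq_nonneg _
  -- the tail
  have hP2 : Real.exp (-η ^ 2 / (8 * s)) ≤ 8 * s / η ^ 2 := by
    have h1 : (-η ^ 2 / (8 * s)) = -(η ^ 2 / (8 * s)) := by ring
    rw [h1, Real.exp_neg]
    have h2 : η ^ 2 / (8 * s) ≤ Real.exp (η ^ 2 / (8 * s)) := by
      have := Real.add_one_le_exp (η ^ 2 / (8 * s))
      linarith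
    have h3 : 0 < η ^ 2 / (8 * s) := by positivity
    calc (Real.exp (η ^ 2 / (8 * s)))⁻¹ ≤ (η ^ 2 / (8 * s))⁻¹ := inv_anti₀ h3 h2
      _ = 8 * s / η ^ 2 := by rw [inv_div]
  have hTA : T ≤ Q * (8 * s / η ^ 2) * A0 := by
    refine hT.trans (mul_le_mul_of_nonneg_right (hP.trans ?_) hA00)
    rw [← hQ]
    exact mul_le_mul_of_nonneg_left hP2 hQ0.le
  have hCT : 2 * C * (Q * (8 * s / η ^ 2)) ≤ K2 - K := by
    have h1 : 2 * C * (Q * (8 * s / η ^ 2)) = s * (16 * C * Q) / η ^ 2 := by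
      field_simp
      ring
    rw [h1, div_le_iff₀ (by positivity)]
    exact hs3
  have hDl : K2 * X - C * T ≤ D := by
    have h1 : (1 + δ) * (K2 * X - C * T) ≤ (1 + δ) * D := by
      have h2 : (1 + δ) * (K2 * X - C * T) =
          K' * (X - T) - (1 + 1 / δ) * M ^ 2 * T := by
        rw [hC, hK2]
        field_simp
        ring
      rw [h2]
      linarith
    exact le_of_mul_le_mul_left h1 (by linarith)
  have hX1 : X * (1 + 2 * s * K2) ≤ A0 * (1 + s * (K2 - K)) := by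
    have h1 : X + 2 * s * (K2 * X - C * T) ≤ A0 := by
      have := mul_le_mul_of_nonneg_left hDl (show (0 : ℝ) ≤ 2 * s by linarith)
      linarith
    have h2 : 2 * s * (C * T) ≤ s * (K2 - K) * A0 := by
      have h3 : 2 * C * T ≤ (K2 - K) * A0 := by
        calc 2 * C * T ≤ 2 * C * (Q * (8 * s / η ^ 2) * A0) :=
              mul_le_mul_of_nonneg_left hTA (by positivity)
          _ = 2 * C * (Q * (8 * s / η ^ 2)) * A0 := by ring
          _ ≤ (K2 - K) * A0 := mul_le_mul_of_nonneg_right hCT hA00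
      have h4 := mul_le_mul_of_nonneg_left h3 hs.le
      linarith
    linarith
  have hfin : 1 + s * (K2 - K) ≤ (1 - s * K) ^ 2 * (1 + 2 * s * K2) := by
    have h1 : (1 - s * K) ^ 2 * (1 + 2 * s * K2) = 1 + s * (2 * (K2 - K)) -
        s * (s * (4 * K * K2)) + s ^ 2 * K ^ 2 + 2 * s ^ 3 * K ^ 2 * K2 := by ring
    have h2 : 0 ≤ s ^ 2 * K ^ 2 := by positivity
    have h3 : 0 ≤ 2 * s ^ 3 * K ^ 2 * K2 := by positivity
    have h4 : s * (s * (4 * K * K2)) ≤ s * (K2 - K) := mul_le_mul_of_nonneg_left hs2 hs.le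
    rw [h1]
    linarith
  have hX2 : X * (1 + 2 * s * K2) ≤ ((1 - s * K) ^ 2 * A0) * (1 + 2 * s * K2) := by
    calc X * (1 + 2 * s * K2) ≤ A0 * (1 + s * (K2 - K)) := hX1
      _ ≤ A0 * ((1 - s * K) ^ 2 * (1 + 2 * s * K2)) := mul_le_mul_of_nonneg_left hfin hA00
      _ = _ := by ring
  exact le_of_mul_le_mul_right hX2 (by positivity)

/-- the heat form, sets in the unit ball -/
theorem cut_form1 (hHK : T_HK) (hINT : T_INT) (hRPS : T_RPS) (hRPA : T_RPA) (hLA : T_LA)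
    {N : ℕ} (hN : 1 ≤ N) {K0 Ω : Set (E N)} (hK0c : IsCompact K0) (hΩ : IsOpen Ω)
    (hKΩ : K0 ⊆ Ω) (hKB : K0 ⊆ ball (0 : E N) 1) {K : ℝ} (hK0 : 0 < K) (hK : K < lam N 1 Ω) :
    ∃ s₀ : ℝ, 0 < s₀ ∧ ∀ s : ℝ, 0 < s → s ≤ s₀ →
      ∀ f : E N → ℝ, Bd K0 f →
        K * (∫ x, f x ^ 2) ≤ ((∫ x, f x ^ 2) - Qf N s f) / s := by
  obtain ⟨s₀, hs₀, h⟩ := cut_rp hHK hINT hRPS hRPA hLA hN hK0c hΩ hKΩ hKB hK0 hK
  refine ⟨s₀, hs₀, fun s hs hss f hf => ?_⟩
  obtain ⟨h1, h2⟩ := h s hs hss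
  have h3 := h2 f hf
  have hfB : Bd (ball (0 : E N) 1) f :=
    ⟨hf.1, hf.2.1, fun x hx => hf.2.2 x (fun h => hx (hKB h))⟩
  obtain ⟨hF2, -, -⟩ := hRPA N s f hs hfB
  obtain ⟨-, -, -, -, -, ffint, -, -, -, -, hfsm⟩ :=
    hINT N s (ball 0 1) f f hs measurableSet_ball isBounded_ball hfB hfB
  rw [le_div_iff₀ hs]
  -- Cauchy-Schwarz in the form `2 f g ≤ τ f² + g² / τ`
  set A0 : ℝ := ∫ x, f x ^ 2 with hA0
  have hA00 : 0 ≤ A0 := integral_nonneg fun x => sq_nonneg _
  rcases eq_or_lt_of_le h1 with h0 | h0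
  · -- `τ = 0`
    have h4 : Qf N s f ≤ 0 + 0 := by
      have hz : ∫ x, sm N s f x ^ 2 ≤ 0 := by
        rw [← h0] at h3
        simpa using h3
      have hq : ∀ t : ℝ, 0 < t → Qf N s f ≤ t * A0 := by
        intro t ht
        have h5 : Qf N s f ≤ ∫ x, (t * f x ^ 2 + 1 / (4 * t) * sm N s f x ^ 2) := by
          refine integral_mono hfsm ((ffint.const_mul _).add (hF2.const_mul _)) fun x => ?_
          show f x * sm N s f x ≤ t * f x ^ 2 + 1 / (4 * t) * sm N s f x ^ 2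
          have : t * f x ^ 2 + 1 / (4 * t) * sm N s f x ^ 2 - f x * sm N s f x =
              (2 * t * f x - sm N s f x) ^ 2 / (4 * t) := by
            field_simp
            ring
          have h6 : 0 ≤ (2 * t * f x - sm N s f x) ^ 2 / (4 * t) := by positivity
          linarith
        rw [integral_add (ffint.const_mul _) (hF2.const_mul _), integral_const_mul,
          integral_const_mul] at h5
        have h6 : 1 / (4 * t) * ∫ x, sm N s f x ^ 2 ≤ 0 :=
          mul_nonpos_of_nonneg_of_nonpos (by positivity) hz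
        linarith
      have hlim : Tendsto (fun t : ℝ => t * A0) (𝓝[>] 0) (𝓝 (0 * A0)) :=
        ((continuous_id.mul continuous_const).tendsto 0).mono_left nhdsWithin_le_nhds
      have := ge_of_tendsto hlim (by
        filter_upwards [self_mem_nhdsWithin] with t ht
        exact hq t ht)
      linarith
    have h5 : s * K = 1 := by linarith
    nlinarith
  · have h4 : Qf N s f ≤ (1 - s * K) * A0 := by
      set τ := 1 - s * K with hτ
      have h5 : Qf N s f ≤ ∫ x, (τ / 2 * f x ^ 2 + 1 / (2 * τ) * sm N s f x ^ 2) := by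
        refine integral_mono hfsm ((ffint.const_mul _).add (hF2.const_mul _)) fun x => ?_
        show f x * sm N s f x ≤ τ / 2 * f x ^ 2 + 1 / (2 * τ) * sm N s f x ^ 2
        have : τ / 2 * f x ^ 2 + 1 / (2 * τ) * sm N s f x ^ 2 - f x * sm N s f x =
            (τ * f x - sm N s f x) ^ 2 / (2 * τ) := by
          field_simp
          ring
        have h6 : 0 ≤ (τ * f x - sm N s f x) ^ 2 / (2 * τ) := by positivity
        linarith
      rw [integral_add (ffint.const_mul _) (hF2.const_mul _), integral_const_mul,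
        integral_const_mul] at h5
      have h6 : 1 / (2 * τ) * ∫ x, sm N s f x ^ 2 ≤ 1 / (2 * τ) * (τ ^ 2 * A0) :=
        mul_le_mul_of_nonneg_left h3 (by positivity)
      have h7 : 1 / (2 * τ) * (τ ^ 2 * A0) = τ / 2 * A0 := by
        field_simp
      linarith
    nlinarith

end Pool.Agent.H85.LNN
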