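import Pool.Agent.H69.LNN.Lib

/-! MP_8f7db2_an, all dimensions: row PN of board lnn_modules -/

set_option autoImplicit false

open MeasureTheory Metric Set
open scoped ENNReal
open Pool.Agent.H85.LK (E adm lam Ann)
open Pool.Agent.H69.LQ Pool.Agent.H69.LNN

namespace Pool.Agent.H85.LNN

/-- a linear differential equation with a small coefficient -/
theorem pn_ode (P P' Q : ℝ → ℝ) (h1 : ∀ x, HasDerivAt P (P' x) x)
    (h2 : ∀ x, HasDerivAt P' (Q x * P x) x) (h0 : P 0 = 0) (x δ : ℝ) (hδ : 0 ≤ δ)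
    (hQ : ∀ y, |y| ≤ |x| → |Q y| ≤ δ) (hx : δ * x ^ 2 ≤ 1 / 2) :
    |P' x - P' 0| ≤ 2 * δ * x ^ 2 * |P' 0| ∧ |P x - P' 0 * x| ≤ 2 * δ * x ^ 2 * |P' 0| * |x| := by
  have hc : Continuous P' := continuous_iff_continuousAt.2 fun y => (h2 y).continuousAt
  have hmem : ∀ y, y ∈ Icc (-|x|) |x| ↔ |y| ≤ |x| := fun y => by rw [mem_Icc, abs_le]
  have h0m : (0 : ℝ) ∈ Icc (-|x|) |x| := (hmem 0).2 (by rw [abs_zero]; exact abs_nonneg x)
  have hxm : x ∈ Icc (-|x|) |x| := (hmem x).2 le_rfl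
  obtain ⟨y₀, hy₀, hmax⟩ := (isCompact_Icc (a := -|x|) (b := |x|)).exists_isMaxOn ⟨0, h0m⟩
    hc.abs.continuousOn
  obtain ⟨M, hM⟩ : ∃ M, M = |P' y₀| := ⟨_, rfl⟩
  have hM1 : ∀ y, |y| ≤ |x| → |P' y| ≤ M := fun y hy => by
    rw [hM]; exact hmax ((hmem y).2 hy)
  have hM0 : 0 ≤ M := hM ▸ abs_nonneg _
  have hconv : Convex ℝ (Icc (-|x|) |x|) := convex_Icc _ _
  -- the bound of P
  have hP : ∀ y, |y| ≤ |x| → |P y| ≤ M * |x| := fun y hy => by
    have h := hconv.norm_image_sub_le_of_norm_hasDerivWithin_le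
      (f := P) (f' := P') (C := M) (x := 0) (y := y)
      (fun z _ => (h1 z).hasDerivWithinAt) (fun z hz => hM1 z ((hmem z).1 hz)) h0m ((hmem y).2 hy)
    rw [h0, sub_zero, sub_zero, Real.norm_eq_abs, Real.norm_eq_abs] at h
    exact h.trans (mul_le_mul_of_nonneg_left hy hM0)
  have hP' : ∀ y, |y| ≤ |x| → |P' y - P' 0| ≤ δ * (M * |x|) * |x| := fun y hy => by
    have h := hconv.norm_image_sub_le_of_norm_hasDerivWithin_le
      (f := P') (f' := fun z => Q z * P z) (C := δ * (M * |x|)) (x := 0) (y := y)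
      (fun z _ => (h2 z).hasDerivWithinAt) (fun z hz => by
        rw [Real.norm_eq_abs, abs_mul]
        exact mul_le_mul (hQ z ((hmem z).1 hz)) (hP z ((hmem z).1 hz)) (abs_nonneg _) hδ)
      h0m ((hmem y).2 hy)
    rw [sub_zero, Real.norm_eq_abs, Real.norm_eq_abs] at h
    exact h.trans (mul_le_mul_of_nonneg_left hy (by positivity))
  have hsq : |x| * |x| = x ^ 2 := by rw [← sq, sq_abs]
  have hP'' : ∀ y, |y| ≤ |x| → |P' y - P' 0| ≤ δ * x ^ 2 * M := fun y hy => by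
    have := hP' y hy
    rw [← hsq]
    linarith
  have hM2 : M ≤ 2 * |P' 0| := by
    have h3 := hP'' y₀ ((hmem y₀).1 hy₀)
    have h4 : M ≤ |P' y₀ - P' 0| + |P' 0| := by
      rw [hM]
      have := abs_add_le (P' y₀ - P' 0) (P' 0)
      rwa [sub_add_cancel] at this
    have h5 : δ * x ^ 2 * M ≤ 1 / 2 * M := mul_le_mul_of_nonneg_right hx hM0
    linarith
  have hfin : ∀ y, |y| ≤ |x| → |P' y - P' 0| ≤ 2 * δ * x ^ 2 * |P' 0| := fun y hy => by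
    have h3 := hP'' y hy
    have h4 : δ * x ^ 2 * M ≤ δ * x ^ 2 * (2 * |P' 0|) :=
      mul_le_mul_of_nonneg_left hM2 (by positivity)
    linarith
  refine ⟨hfin x le_rfl, ?_⟩
  have h := hconv.norm_image_sub_le_of_norm_hasDerivWithin_le
    (f := fun z => P z - P' 0 * z) (f' := fun z => P' z - P' 0) (C := 2 * δ * x ^ 2 * |P' 0|)
    (x := 0) (y := x)
    (fun z _ => by
      have h3 := (h1 z).sub ((hasDerivAt_id z).const_mul (P' 0))
      rw [mul_one] at h3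
      exact h3.hasDerivWithinAt)
    (fun z hz => hfin z ((hmem z).1 hz)) h0m hxm
  simp only [h0, mul_zero, sub_zero, Real.norm_eq_abs] at h
  exact h

/-- the potential is small near the boundary -/
theorem pn_q {n L C x e : ℝ} {K : ℝ} (hn : 1 ≤ n) (hC : 0 < C) (hK : 1 ≤ K)
    (he : 0 < e) (h1 : n ^ 2 / 4 ≤ L) (h2 : L ≤ n ^ 2 / 4 * (1 + C / Real.sqrt n))
    (hx : |x| ≤ K / n) (hn1 : 2 * K ≤ n) (hn2 : (C / (2 * e)) ^ 2 ≤ n)
    (hn3 : 2 * (1 + C) * K / e ≤ n) :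
    |n ^ 2 / 4 - L * Real.exp (2 * x)| ≤ e * n ^ 2 := by
  have hn0 : 0 < n := by linarith
  have hs : 1 ≤ Real.sqrt n := by
    rw [show (1 : ℝ) = Real.sqrt 1 by simp]
    exact Real.sqrt_le_sqrt hn
  have hs1 : C / (2 * e) ≤ Real.sqrt n := Real.le_sqrt_of_sq_le hn2
  have hs2 : C / Real.sqrt n ≤ 2 * e := by
    rw [div_le_iff₀ (by linarith)]
    rw [div_le_iff₀ (by linarith)] at hs1
    linarith
  have hs3 : C / Real.sqrt n ≤ C := div_le_self hC.le hs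
  have hL0 : 0 ≤ L := le_trans (by positivity) h1
  have hL : L ≤ n ^ 2 / 4 * (1 + C) :=
    h2.trans (mul_le_mul_of_nonneg_left (by linarith) (by positivity))
  have hx2 : |2 * x| ≤ 2 * K / n := by
    rw [abs_mul, abs_of_pos (by norm_num : (0 : ℝ) < 2), mul_div_assoc]
    linarith
  have hx3 : 2 * K / n ≤ 1 := (div_le_one hn0).2 hn1
  have hexp : |Real.exp (2 * x) - 1| ≤ 2 * (2 * K / n) :=
    (Real.abs_exp_sub_one_le (hx2.trans hx3)).trans (by linarith)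
  have hKn : 2 * (1 + C) * (K / n) ≤ e := by
    rw [div_le_iff₀ he] at hn3
    rw [← mul_div_assoc, div_le_iff₀ hn0]
    linarith
  have h3 : |n ^ 2 / 4 - L| ≤ n ^ 2 / 4 * (2 * e) := by
    rw [abs_sub_comm, abs_of_nonneg (by linarith)]
    have := mul_le_mul_of_nonneg_left hs2 (by positivity : 0 ≤ n ^ 2 / 4)
    linarith
  have h4 : |L * (Real.exp (2 * x) - 1)| ≤ n ^ 2 / 4 * (1 + C) * (2 * (2 * K / n)) := by
    rw [abs_mul, abs_of_nonneg hL0]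
    exact mul_le_mul hL hexp (abs_nonneg _) (by positivity)
  have h5 : n ^ 2 / 4 * (1 + C) * (2 * (2 * K / n)) = n ^ 2 / 2 * (2 * (1 + C) * (K / n)) := by
    ring
  have h6 : n ^ 2 / 2 * (2 * (1 + C) * (K / n)) ≤ n ^ 2 / 2 * e :=
    mul_le_mul_of_nonneg_left hKn (by positivity)
  have h7 : n ^ 2 / 4 - L * Real.exp (2 * x) =
      (n ^ 2 / 4 - L) - L * (Real.exp (2 * x) - 1) := by ring
  have h8 : |n ^ 2 / 4 - L * Real.exp (2 * x)| ≤
      |n ^ 2 / 4 - L| + |L * (Real.exp (2 * x) - 1)| := by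
    rw [h7]; exact abs_sub _ _
  linarith

theorem pf_PN (hL1 : T_L1) (hL2 : T_L2) (hPE : T_PE) : T_PN := by
  intro K ε hK hε
  obtain ⟨C, N₁, hC, hN₁, hL2⟩ := hL2
  obtain ⟨e, he⟩ : ∃ e, e = min ε 1 / (2 * (K ^ 2 + 1)) := ⟨_, rfl⟩
  have hm : 0 < min ε 1 := lt_min hε one_pos
  have he0 : 0 < e := by rw [he]; positivity
  have heK : e * (2 * (K ^ 2 + 1)) = min ε 1 := by
    rw [he]; exact div_mul_cancel₀ _ (by positivity)
  have heε : 2 * e ≤ ε := by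
    have h1 : min ε 1 ≤ ε := min_le_left _ _
    have h2 : 0 ≤ e * K ^ 2 := by positivity
    nlinarith
  have heK2 : e * K ^ 2 ≤ 1 / 2 := by
    have h1 : min ε 1 ≤ 1 := min_le_right _ _
    nlinarith
  obtain ⟨N₂, hN₂⟩ := exists_nat_ge ((C / (2 * e)) ^ 2)
  obtain ⟨N₃, hN₃⟩ := exists_nat_ge (2 * (1 + C) * K / e)
  obtain ⟨N₄, hN₄⟩ := exists_nat_ge (2 * K)
  refine ⟨N₁ + N₂ + N₃ + N₄, by omega, fun N L x hN hFz hx => ?_⟩
  have hNr : ((N₁ + N₂ + N₃ + N₄ : ℕ) : ℝ) ≤ N := by exact_mod_cast hN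
  push_cast at hNr
  have a1 : (0 : ℝ) ≤ N₁ := Nat.cast_nonneg _
  have a2 : (0 : ℝ) ≤ N₂ := Nat.cast_nonneg _
  have a3 : (0 : ℝ) ≤ N₃ := Nat.cast_nonneg _
  have a4 : (0 : ℝ) ≤ N₄ := Nat.cast_nonneg _
  have hN3 : 3 ≤ N := by omega
  have hn1 : (1 : ℝ) ≤ N := by exact_mod_cast (by omega : 1 ≤ N)
  have hn0 : (0 : ℝ) < N := by linarith
  obtain ⟨hP1, hP2, hP0, hP'0, -, -⟩ := hPE N L hN3 hFz
  have hQ : ∀ y, |y| ≤ |x| → |qx N L y| ≤ e * (N : ℝ) ^ 2 := fun y hy =>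
    pn_q hn1 hC hK he0 (hL1 N L hN3 hFz) (hL2 N L (by omega) hFz) (hy.trans hx)
      (by linarith) (by linarith) (by linarith)
  have hNx : ((N : ℝ) * x) ^ 2 ≤ K ^ 2 := by
    rw [le_div_iff₀ hn0] at hx
    have : |(N : ℝ) * x| ≤ K := by
      rw [abs_mul, abs_of_pos hn0]
      linarith
    rw [← sq_abs]
    exact pow_le_pow_left₀ (abs_nonneg _) this 2
  have hx2 : e * (N : ℝ) ^ 2 * x ^ 2 ≤ 1 / 2 := by
    have : e * (N : ℝ) ^ 2 * x ^ 2 = e * ((N : ℝ) * x) ^ 2 := by ring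
    rw [this]
    exact (mul_le_mul_of_nonneg_left hNx he0.le).trans heK2
  have h := pn_ode (Px N L) (Px' N L) (qx N L) hP1 hP2 hP0 x (e * (N : ℝ) ^ 2) (by positivity)
    hQ hx2
  rw [hP'0] at h
  have hk : 2 * (e * (N : ℝ) ^ 2) * x ^ 2 * |dph N L 1 1| ≤
      ε * |dph N L 1 1| * ((N : ℝ) * x) ^ 2 := by
    have h1 : 2 * (e * (N : ℝ) ^ 2) * x ^ 2 * |dph N L 1 1| =
        (2 * e) * (|dph N L 1 1| * ((N : ℝ) * x) ^ 2) := by ring
    have h2 := mul_le_mul_of_nonneg_right heε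
      (by positivity : 0 ≤ |dph N L 1 1| * ((N : ℝ) * x) ^ 2)
    rw [h1, mul_assoc ε]
    exact h2
  refine ⟨h.1.trans hk, h.2.trans ?_⟩
  have := mul_le_mul_of_nonneg_right hk (abs_nonneg x)
  refine this.trans (le_of_eq ?_)
  ring

end Pool.Agent.H85.LNN
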