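import Pool.Agent.H85.LNN.LS
import Pool.Agent.H69.LNN.Targets2
import Pool.Agent.H3.LK.SCL
import Pool.Agent.H19.LK.NE

/-! MP_8f7db2_an, all dimensions: row LNQ of board lnn_modules -/

set_option autoImplicit false

open MeasureTheory Metric Set
open scoped ENNReal

namespace Pool.Agent.H85.LNN

open Pool.Agent.H85.LK (E adm lam)
open Pool.Agent.H69.LQ (Fz T_FZ T_UB)
open Pool.Agent.H69.LNN

theorem preimage_smul_ball {N : ℕ} {r : ℝ} (hr : 0 < r) (o : E N) :
    (fun x : E N => r • x) ⁻¹' ball (r • o) r = ball o 1 := by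
  ext x
  rw [mem_preimage, mem_ball, mem_ball, dist_eq_norm, dist_eq_norm, ← smul_sub, norm_smul,
    Real.norm_of_nonneg hr.le]
  constructor
  · intro h
    by_contra hx
    push Not at hx
    nlinarith
  · intro h
    nlinarith

/-- the asymmetry is invariant under dilations -/
theorem asym_smul {N : ℕ} {r : ℝ} (hr : 0 < r) (Ω : Set (E N)) (o : E N) :
    volume.real (symmDiff Ω (ball (r • o) r)) / volume.real (ball (0 : E N) r) =
      volume.real (symmDiff ((fun x : E N => r • x) ⁻¹' Ω) (ball o 1)) / vB N := by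
  have h1 : symmDiff ((fun x : E N => r • x) ⁻¹' Ω) (ball o 1) =
      (fun x : E N => r • x) ⁻¹' (symmDiff Ω (ball (r • o) r)) := by
    rw [← preimage_smul_ball hr o]
    rfl
  have h2 : ball (0 : E N) 1 = (fun x : E N => r • x) ⁻¹' (ball (0 : E N) r) := by
    have h := preimage_smul_ball hr (0 : E N)
    rw [smul_zero] at h
    exact h.symm
  unfold vB Measure.real
  rw [h1, h2, Measure.addHaar_preimage_smul _ hr.ne', Measure.addHaar_preimage_smul _ hr.ne',
    ENNReal.toReal_mul, ENNReal.toReal_mul]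
  have h3 : (ENNReal.ofReal |(r ^ Module.finrank ℝ (E N))⁻¹|).toReal ≠ 0 := by
    rw [ENNReal.toReal_ofReal (abs_nonneg _)]
    positivity
  rw [mul_div_mul_left _ _ h3]

theorem pf_LNQ (hFZ : T_FZ) (hUB : T_UB) (hCLQ : T_CLQ) (hLMQ : T_LMQ) (hL2 : T_L2) :
    T_LNQ := by
  obtain ⟨κ, c1, N1, hκ, hc1, hN1, hlm⟩ := hLMQ
  obtain ⟨η, N2, hη, hN2, hcl⟩ := hCLQ κ hκ
  obtain ⟨C, N3, hC, hN3, hl2⟩ := hL2
  obtain ⟨N4, hN4⟩ := exists_nat_ge (C ^ 2)
  obtain ⟨c, hcd⟩ : ∃ c, c = min c1 (η / 2) := ⟨_, rfl⟩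
  have hc : 0 < c := by rw [hcd]; positivity
  have hcc1 : c ≤ c1 := hcd ▸ min_le_left _ _
  have hcη : c ≤ η / 2 := hcd ▸ min_le_right _ _
  refine ⟨c, N1 + N2 + N3 + N4, hc, fun N r Ω hN hr hΩ hvol => ?_⟩
  have hNN1 : N1 ≤ N := by omega
  have hNN2 : N2 ≤ N := by omega
  have hNN3 : N3 ≤ N := by omega
  have hNN4 : C ^ 2 ≤ N := hN4.trans (by exact_mod_cast (by omega : N4 ≤ N))
  have hN3r : (3 : ℝ) ≤ N := by exact_mod_cast hN1.trans hNN1
  have hN0 : (0 : ℝ) < N := by linarith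
  have hvb := vB_pos N
  obtain ⟨Ω1, hΩ1⟩ : ∃ Ω1 : Set (E N), Ω1 = (fun x : E N => r • x) ⁻¹' Ω := ⟨_, rfl⟩
  have hΩ1o : IsOpen Ω1 := by
    rw [hΩ1]
    exact hΩ.preimage (continuous_const_smul r)
  have hpre1 : (fun x : E N => r • x) ⁻¹' ball (0 : E N) r = ball (0 : E N) 1 := by
    have h := preimage_smul_ball hr (0 : E N)
    rwa [smul_zero] at h
  have hΩ1v : volume Ω1 = volume (ball (0 : E N) 1) := by
    rw [← hpre1, hΩ1, Measure.addHaar_preimage_smul _ hr.ne',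
      Measure.addHaar_preimage_smul _ hr.ne', hvol]
  have hne : Ω1.Nonempty := by
    rw [nonempty_iff_ne_empty]
    intro h
    rw [h, measure_empty] at hΩ1v
    exact (measure_ball_pos volume (0 : E N) one_pos).ne hΩ1v
  have hscl := (Pool.Agent.H3.LK.pf_SCL N (N + 1) r⁻¹ (inv_pos.mpr hr)).2.1 Ω
  rw [inv_inv, ← hΩ1] at hscl
  have hscb := (Pool.Agent.H3.LK.pf_SCL N (N + 1) r hr).2.2
  obtain ⟨L, hL⟩ := hFZ N (by omega)
  have hub := hUB N L (by omega) hL
  have hL' : L ≤ (N : ℝ) ^ 2 / 2 := by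
    have h1 := hl2 N L hNN3 hL
    have h2 : C / Real.sqrt N ≤ 1 := by
      have h3 : C ≤ Real.sqrt N := Real.le_sqrt_of_sq_le hNN4
      exact div_le_one_of_le₀ h3 (Real.sqrt_nonneg _)
    have h4 : (N : ℝ) ^ 2 / 4 * (1 + C / Real.sqrt N) ≤ (N : ℝ) ^ 2 / 4 * (1 + 1) :=
      mul_le_mul_of_nonneg_left (by linarith) (by positivity)
    linarith
  have hlb : lam N (N + 1) (ball (0 : E N) 1) ≤ (N : ℝ) ^ 2 / 2 := hub.trans hL'
  -- the inequality for the unit ball
  have hmain : ∃ o : E N, lam N (N + 1) (ball (0 : E N) 1) *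
      (1 + c / N * (volume.real (symmDiff Ω1 (ball o 1)) / vB N) ^ 2) ≤
      lam N (N + 1) Ω1 := by
    have hexp : ∀ A : ℝ, lam N (N + 1) (ball (0 : E N) 1) * (1 + c / N * A ^ 2) ≤
        lam N (N + 1) (ball (0 : E N) 1) + c / 2 * N * A ^ 2 := by
      intro A
      have h1 : lam N (N + 1) (ball (0 : E N) 1) * (c / N * A ^ 2) ≤
          (N : ℝ) ^ 2 / 2 * (c / N * A ^ 2) := mul_le_mul_of_nonneg_right hlb (by positivity)
      have h2 : (N : ℝ) ^ 2 / 2 * (c / N * A ^ 2) = c / 2 * N * A ^ 2 := by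
        field_simp
      linarith
    rcases le_or_gt (lam N (N + 1) Ω1) (lam N (N + 1) (ball (0 : E N) 1) + η * N) with h | h
    · obtain ⟨z, hz⟩ := hcl N Ω1 hNN2 hΩ1o hΩ1v h
      obtain ⟨o, ho⟩ := hlm N L Ω1 z hNN1 hL hΩ1o hΩ1v hz
      refine ⟨o, ?_⟩
      have h1 : L + c1 * N * (volume.real (symmDiff Ω1 (ball o 1)) / vB N) ^ 2 ≤
          lam N (N + 1) Ω1 :=
        le_csInf (Pool.Agent.H19.LK.pf_NE N (N + 1) Ω1 (by omega) hΩ1o hne) ho
      refine (hexp _).trans (le_trans ?_ h1)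
      have h2 : c / 2 * N * (volume.real (symmDiff Ω1 (ball o 1)) / vB N) ^ 2 ≤
          c1 * N * (volume.real (symmDiff Ω1 (ball o 1)) / vB N) ^ 2 := by
        apply mul_le_mul_of_nonneg_right _ (sq_nonneg _)
        exact mul_le_mul_of_nonneg_right (by linarith) hN0.le
      linarith
    · refine ⟨0, (hexp _).trans ?_⟩
      have hA : volume.real (symmDiff Ω1 (ball (0 : E N) 1)) / vB N ≤ 2 := by
        rw [div_le_iff₀ hvb]
        have h1 : volume.real (symmDiff Ω1 (ball (0 : E N) 1)) ≤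
            volume.real (Ω1 ∪ ball (0 : E N) 1) := by
          refine measureReal_mono ?_ ?_
          · intro x hx
            rcases hx with hx | hx
            · exact Or.inl hx.1
            · exact Or.inr hx.1
          · exact ((measure_union_le _ _).trans_lt (ENNReal.add_lt_top.2
              ⟨hΩ1v ▸ measure_ball_lt_top, measure_ball_lt_top⟩)).ne
        have h2 := measureReal_union_le (μ := (volume : Measure (E N))) Ω1 (ball (0 : E N) 1)
        have h3 : volume.real Ω1 = vB N := by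
          unfold vB Measure.real
          rw [hΩ1v]
        have h4 : volume.real (ball (0 : E N) 1) = vB N := rfl
        linarith
      have hA0 : 0 ≤ volume.real (symmDiff Ω1 (ball (0 : E N) 1)) / vB N := by positivity
      have hA2 : (volume.real (symmDiff Ω1 (ball (0 : E N) 1)) / vB N) ^ 2 ≤ 2 ^ 2 :=
        pow_le_pow_left₀ hA0 hA 2
      have h5 : c / 2 * N * (volume.real (symmDiff Ω1 (ball (0 : E N) 1)) / vB N) ^ 2 ≤
          c / 2 * N * 2 ^ 2 := mul_le_mul_of_nonneg_left hA2 (by positivity)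
      have h6 : c / 2 * N * 2 ^ 2 ≤ η * N := by nlinarith
      linarith
  obtain ⟨o, ho⟩ := hmain
  refine ⟨r • o, ?_⟩
  rw [asym_smul hr Ω o, ← hΩ1, hscb, div_mul_eq_mul_div, div_le_iff₀ (by positivity)]
  have h3 : lam N (N + 1) Ω1 = lam N (N + 1) Ω * r ^ 2 := by
    rw [hscl, inv_pow, div_inv_eq_mul]
  rw [← h3]
  exact ho

end Pool.Agent.H85.LNN
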